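import Mathlib

set_option autoImplicit false

namespace Pool.Agent.Lib.MP_eef9c4_lc

/-- The Turing join of two total functions. -/
def join (f g : ℕ → ℕ) : ℕ → ℕ := fun n => if n % 2 = 0 then f (n / 2) else g (n / 2)

/-- A Turing ideal, given as the set of total functions whose degree lies in it. -/
structure IsTuringIdeal (I : Set (ℕ → ℕ)) : Prop where
  nonempty : I.Nonempty
  join_mem : ∀ f ∈ I, ∀ g ∈ I, join f g ∈ I
  mem_of_le : ∀ f g : ℕ → ℕ, TuringReducible (f : ℕ →. ℕ) (g : ℕ →. ℕ) → g ∈ I → f ∈ I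

/-- The first `n` values of a sequence, as a string. -/
def initial (p : ℕ → ℕ) (n : ℕ) : List ℕ := (List.range n).map p

/-- A function on strings, read as a function on numbers through the standard coding. -/
def codeFn (F : List ℕ → ℕ) : ℕ → ℕ := fun n => F (Denumerable.ofNat (List ℕ) n)

open Classical in
/-- The characteristic function of a set of strings, through the standard coding. -/
noncomputable def chi (T : Set (List ℕ)) : ℕ → ℕ := codeFn fun τ => if τ ∈ T then 1 else 0

/-- An infinite binary tree. -/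
structure IsInfBinTree (T : Set (List ℕ)) : Prop where
  binary : ∀ τ ∈ T, ∀ i ∈ τ, i ≤ 1
  closed : ∀ τ ∈ T, ∀ σ : List ℕ, σ <+: τ → σ ∈ T
  infinite : T.Infinite

/-- A Scott ideal. -/
structure IsScottIdeal (I : Set (ℕ → ℕ)) : Prop where
  ideal : IsTuringIdeal I
  path : ∀ a ∈ I, ∀ T : Set (List ℕ), IsInfBinTree T →
    TuringReducible (chi T : ℕ →. ℕ) (a : ℕ →. ℕ) → ∃ p ∈ I, ∀ n, initial p n ∈ T

/-- A profinite subgroup of the group of permutations of `ℕ`: closed for the topology of
pointwise convergence, with finite orbits. -/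
structure IsProfinite (G : Subgroup (Equiv.Perm ℕ)) : Prop where
  closed : @IsClosed (Equiv.Perm ℕ)
    (TopologicalSpace.induced (fun g : Equiv.Perm ℕ => (g : ℕ → ℕ)) Pi.topologicalSpace)
    (G : Set (Equiv.Perm ℕ))
  finite_orbit : ∀ n : ℕ, (MulAction.orbit G n).Finite

/-- The tree `T_G`: all initial segments of the strings `g 0, g⁻¹ 0, g 1, g⁻¹ 1, ...`. -/
def treeOf (G : Subgroup (Equiv.Perm ℕ)) : Set (List ℕ) :=
  {τ | ∃ g ∈ G, ∃ n : ℕ, τ = initial (join g (g⁻¹ : Equiv.Perm ℕ)) n}

/-- The join of the tree `T_G` and of its branching function. -/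
noncomputable def treeCode (G : Subgroup (Equiv.Perm ℕ)) : ℕ → ℕ :=
  join (chi (treeOf G)) (codeFn fun τ => {a : ℕ | τ ++ [a] ∈ treeOf G}.ncard)

/-- The members of `G` whose degree lies in `I`. -/
def subI (G : Subgroup (Equiv.Perm ℕ)) (I : Set (ℕ → ℕ)) : Set (Equiv.Perm ℕ) :=
  {g | g ∈ G ∧ (g : ℕ → ℕ) ∈ I}

end Pool.Agent.Lib.MP_eef9c4_lc
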