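import Mathlib
import Pool.Agent.Lib.MP_eef9c4_lc.Defs

set_option autoImplicit false

open Set Topology Filter

namespace Pool.Agent.Lib.MP_eef9c4_lc

/-- Relations depending on an oracle. -/
abbrev Fn := (ℕ → ℕ) → ℕ → ℕ → Prop

/-- Continuity in the oracle. -/
def Opn (R : Fn) : Prop := ∀ n m, IsOpen {a | R a n m}

/-- `R` at the oracle `a` is the graph of `f`. -/
def Gr (R : Fn) (a : ℕ → ℕ) (f : ℕ → ℕ) : Prop := ∀ n m, R a n m ↔ m = f n

/-- Even part. -/
def p0 (b : ℕ → ℕ) : ℕ → ℕ := fun n => b (2 * n)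

/-- Odd part. -/
def p1 (b : ℕ → ℕ) : ℕ → ℕ := fun n => b (2 * n + 1)

theorem p0_join (f g : ℕ → ℕ) : p0 (join f g) = f := by
  funext n
  simp [p0, join]

theorem p1_join (f g : ℕ → ℕ) : p1 (join f g) = g := by
  funext n
  have h1 : (2 * n + 1) % 2 = 1 := by omega
  have h2 : (2 * n + 1) / 2 = n := by omega
  simp [p1, join, h1, h2]

theorem continuous_p0 : Continuous p0 := continuous_pi fun _ => continuous_apply _

theorem continuous_p1 : Continuous p1 := continuous_pi fun _ => continuous_apply _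

theorem continuous_join : Continuous fun z : (ℕ → ℕ) × (ℕ → ℕ) => join z.1 z.2 := by
  refine continuous_pi fun n => ?_
  unfold join
  split_ifs
  · exact (continuous_apply _).comp continuous_fst
  · exact (continuous_apply _).comp continuous_snd

/-- Cantor space inside Baire space. -/
def KK : Set (ℕ → ℕ) := {p | ∀ i, p i ∈ Iic 1}

theorem isCompact_KK : IsCompact KK :=
  isCompact_pi_infinite fun _ => (finite_Iic 1).isCompact

theorem continuous_initial_code (l : ℕ) :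
    Continuous fun p : ℕ → ℕ => Encodable.encode (initial p l) := by
  have : (fun p : ℕ → ℕ => Encodable.encode (initial p l)) =
      (fun v : Fin l → ℕ => Encodable.encode (List.ofFn v)) ∘
        (fun (p : ℕ → ℕ) (i : Fin l) => p i) := by
    funext p
    simp only [Function.comp, initial]
    congr 1
    apply List.ext_getElem <;> simp
  rw [this]
  exact continuous_of_discreteTopology.comp (continuous_pi fun _ => continuous_apply _)

/-- Primitive recursion on relations. -/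
def precRel (R1 R2 : Fn) (a : ℕ → ℕ) (x : ℕ) : ℕ → ℕ → Prop
  | 0, m => R1 a x m
  | n + 1, m => ∃ i, precRel R1 R2 a x n i ∧ R2 a (Nat.pair x (Nat.pair n i)) m

/-- The countably many operations. -/
def op (k : ℕ × ℕ × ℕ) (R1 R2 : Fn) : Fn :=
  match k.1 with
  | 0 => fun a n m => ∃ u v, R1 a n u ∧ R2 a n v ∧ m = Nat.pair u v
  | 1 => fun a n m => ∃ u, R2 a n u ∧ R1 a u m
  | 2 => fun a p m => precRel R1 R2 a (Nat.unpair p).1 (Nat.unpair p).2 m
  | 3 => fun a x n => R1 a (Nat.pair x n) 0 ∧ ∀ j < n, ∃ v, v ≠ 0 ∧ R1 a (Nat.pair x j) v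
  | 4 => fun b n m => R1 (p0 b) n m
  | 5 => fun a n m => if n % 2 = 0 then R1 a (n / 2) m else R2 a (n / 2) m
  | 6 => fun b _ _ => ∃ l, R1 (p0 b) (Encodable.encode (initial (p1 b) l)) 0
  | 7 => fun b _ _ => R1 b 0 0 ∨ R2 b k.2.1 k.2.2
  | _ => fun a n m => ∀ p ∈ KK, R1 (join a p) 0 0 ∨ R2 (join a p) n m

theorem opn_precRel {R1 R2 : Fn} (h1 : Opn R1) (h2 : Opn R2) (x n : ℕ) :
    ∀ m, IsOpen {a | precRel R1 R2 a x n m} := by
  induction n with
  | zero => exact fun m => h1 x m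
  | succ n ih =>
    intro m
    simp only [precRel, ofPred_exists]
    exact isOpen_iUnion fun i => (ih i).inter (h2 _ _)

theorem opn_op (k : ℕ × ℕ × ℕ) {R1 R2 : Fn} (h1 : Opn R1) (h2 : Opn R2) : Opn (op k R1 R2) := by
  obtain ⟨k, k1, k2⟩ := k
  intro n m
  match k with
  | 0 =>
    simp only [op, ofPred_exists]
    exact isOpen_iUnion fun u => isOpen_iUnion fun v =>
      (h1 _ _).inter ((h2 _ _).inter isOpen_const)
  | 1 =>
    simp only [op, ofPred_exists]
    exact isOpen_iUnion fun u => (h2 _ _).inter (h1 _ _)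
  | 2 => exact opn_precRel h1 h2 _ _ _
  | 3 =>
    simp only [op]
    refine (h1 _ _).inter ?_
    have : {a : ℕ → ℕ | ∀ j < m, ∃ v, v ≠ 0 ∧ R1 a (Nat.pair n j) v} =
        ⋂ j ∈ Iio m, ⋃ v, {a : ℕ → ℕ | v ≠ 0 ∧ R1 a (Nat.pair n j) v} := by
      ext a; simp
    change IsOpen {a : ℕ → ℕ | ∀ j < m, ∃ v, v ≠ 0 ∧ R1 a (Nat.pair n j) v}
    rw [this]
    exact (finite_Iio m).isOpen_biInter fun j _ =>
      isOpen_iUnion fun v => isOpen_const.inter (h1 _ _)
  | 4 => exact (h1 n m).preimage continuous_p0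
  | 5 =>
    simp only [op]
    split_ifs
    · exact h1 _ _
    · exact h2 _ _
  | 6 =>
    simp only [op, ofPred_exists]
    refine isOpen_iUnion fun l => ?_
    have : {b : ℕ → ℕ | R1 (p0 b) (Encodable.encode (initial (p1 b) l)) 0} =
        ⋃ c : ℕ, ((fun b => Encodable.encode (initial (p1 b) l)) ⁻¹' {c}) ∩
          (p0 ⁻¹' {a | R1 a c 0}) := by
      ext b; simp
    rw [this]
    refine isOpen_iUnion fun c => IsOpen.inter ?_ ((h1 _ _).preimage continuous_p0)
    exact (isOpen_discrete _).preimage ((continuous_initial_code l).comp continuous_p1)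
  | 7 => exact (h1 _ _).union (h2 _ _)
  | k + 8 =>
    simp only [op]
    rw [isOpen_iff_mem_nhds]
    intro a ha
    apply isCompact_KK.eventually_forall_of_forall_eventually
      (P := fun a p => R1 (join a p) 0 0 ∨ R2 (join a p) n m)
    intro p hp
    have : IsOpen {z : (ℕ → ℕ) × (ℕ → ℕ) | R1 (join z.1 z.2) 0 0 ∨ R2 (join z.1 z.2) n m} :=
      ((h1 0 0).union (h2 n m)).preimage continuous_join
    exact this.mem_nhds (ha p hp)

theorem exists_countable_closed {X K : Type} [Countable K] (S : Set X) (hS : S.Countable)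
    (o : K → X → X → X) (P : X → Prop) (hP : ∀ x ∈ S, P x)
    (ho : ∀ k x y, P x → P y → P (o k x y)) :
    ∃ A : Set X, A.Countable ∧ S ⊆ A ∧ (∀ k, ∀ x ∈ A, ∀ y ∈ A, o k x y ∈ A) ∧ ∀ x ∈ A, P x := by
  let L : ℕ → Set X := fun n => Nat.rec S (fun _ B => B ∪ ⋃ k, image2 (o k) B B) n
  have hL : ∀ n, L (n + 1) = L n ∪ ⋃ k, image2 (o k) (L n) (L n) := fun n => rfl
  have hmono : Monotone L := monotone_nat_of_le_succ fun n => by
    rw [hL]; exact subset_union_left
  refine ⟨⋃ n, L n, countable_iUnion fun n => ?_, subset_iUnion L 0, ?_, ?_⟩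
  · induction n with
    | zero => exact hS
    | succ n ih => rw [hL]; exact ih.union (countable_iUnion fun k => ih.image2 ih _)
  · intro k x hx y hy
    obtain ⟨n, hn⟩ := mem_iUnion.1 hx
    obtain ⟨m, hm⟩ := mem_iUnion.1 hy
    refine mem_iUnion.2 ⟨max n m + 1, ?_⟩
    rw [hL]
    exact Or.inr (mem_iUnion.2 ⟨k, mem_image2_of_mem (hmono (le_max_left _ _) hn)
      (hmono (le_max_right _ _) hm)⟩)
  · intro x hx
    obtain ⟨n, hn⟩ := mem_iUnion.1 hx
    induction n generalizing x with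
    | zero => exact hP x hn
    | succ n ih =>
      rw [hL] at hn
      rcases hn with hn | hn
      · exact ih x (mem_iUnion.2 ⟨n, hn⟩) hn
      · obtain ⟨k, y, hy, z, hz, rfl⟩ := mem_iUnion.1 hn
        exact ho k y z (ih y (mem_iUnion.2 ⟨n, hy⟩) hy) (ih z (mem_iUnion.2 ⟨n, hz⟩) hz)

/-- The graph of a total functional. -/
def graphFn (Φ : (ℕ → ℕ) → ℕ → ℕ) : Fn := fun a n m => m = Φ a n

theorem opn_graphFn {Φ : (ℕ → ℕ) → ℕ → ℕ} (h : Continuous Φ) : Opn (graphFn Φ) := by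
  intro n m
  have : {a | graphFn Φ a n m} = (fun a => Φ a n) ⁻¹' {m} := by
    ext a; simp [graphFn, eq_comm]
  rw [this]
  exact (isOpen_discrete _).preimage ((continuous_apply n).comp h)

/-- A good family of relations, enumerated by `E`. -/
structure Fam (E : ℕ → Fn) : Prop where
  opn : ∀ e, Opn (E e)
  op_mem : ∀ k e1 e2, op k (E e1) (E e2) ∈ range E
  zero : graphFn (fun _ _ => 0) ∈ range E
  succ : graphFn (fun _ => Nat.succ) ∈ range E
  left : graphFn (fun _ n => (Nat.unpair n).1) ∈ range E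
  right : graphFn (fun _ n => (Nat.unpair n).2) ∈ range E
  pone : graphFn p1 ∈ range E
  bot : (fun _ _ _ => False) ∈ range E

theorem exists_fam {K : Type} [Countable K] (Φ : K → (ℕ → ℕ) → ℕ → ℕ)
    (hΦ : ∀ k, Continuous (Φ k)) : ∃ E : ℕ → Fn, Fam E ∧ ∀ k, graphFn (Φ k) ∈ range E := by
  let S : Set Fn := range (fun k => graphFn (Φ k)) ∪ {graphFn (fun _ _ => 0),
    graphFn (fun _ => Nat.succ), graphFn (fun _ n => (Nat.unpair n).1),
    graphFn (fun _ n => (Nat.unpair n).2), graphFn p1, (fun _ _ _ => False)}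
  have hS : S.Countable := (countable_range _).union (Set.toFinite _).countable
  obtain ⟨A, hA, hSA, hop, hP⟩ := exists_countable_closed S hS op Opn (by
    rintro x (⟨k, rfl⟩ | rfl | rfl | rfl | rfl | rfl | rfl)
    · exact opn_graphFn (hΦ k)
    · exact opn_graphFn continuous_const
    · exact opn_graphFn continuous_const
    · exact opn_graphFn continuous_const
    · exact opn_graphFn continuous_const
    · exact opn_graphFn continuous_p1
    · intro n m; simp) (fun k x y hx hy => opn_op k hx hy)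
  have hne : A.Nonempty := ⟨_, hSA (Or.inr (Or.inl rfl))⟩
  obtain ⟨E, rfl⟩ := hA.exists_eq_range hne
  refine ⟨E, ⟨fun e => hP _ ⟨e, rfl⟩, fun k e1 e2 => hop k _ ⟨e1, rfl⟩ _ ⟨e2, rfl⟩, ?_, ?_, ?_, ?_,
    ?_, ?_⟩, fun k => hSA (Or.inl ⟨k, rfl⟩)⟩ <;> apply hSA <;> simp [S]

theorem Fam.op_mem' {E : ℕ → Fn} (h : Fam E) (k : ℕ × ℕ × ℕ) {R1 R2 : Fn} (h1 : R1 ∈ range E)
    (h2 : R2 ∈ range E) : op k R1 R2 ∈ range E := by
  obtain ⟨e1, rfl⟩ := h1
  obtain ⟨e2, rfl⟩ := h2
  exact h.op_mem k e1 e2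

theorem Fam.opn' {E : ℕ → Fn} (h : Fam E) {R : Fn} (h1 : R ∈ range E) : Opn R := by
  obtain ⟨e1, rfl⟩ := h1
  exact h.opn e1

theorem Fam.recursiveIn {E : ℕ → Fn} (h : Fam E) {a g : ℕ → ℕ} {R : Fn} (hR : R ∈ range E)
    (hg : Gr R a g) {f : ℕ →. ℕ} (hf : Nat.RecursiveIn {(g : ℕ →. ℕ)} f) :
    ∃ R' ∈ range E, ∀ n m, R' a n m ↔ m ∈ f n := by
  induction hf with
  | zero => exact ⟨_, h.zero, fun n m => by
      simp only [graphFn]
      exact (Part.mem_some_iff).symm⟩
  | succ => exact ⟨_, h.succ, fun n m => by simp [graphFn]⟩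
  | left => exact ⟨_, h.left, fun n m => by simp [graphFn]⟩
  | right => exact ⟨_, h.right, fun n m => by simp [graphFn]⟩
  | oracle g' hg' =>
    rw [mem_singleton_iff] at hg'
    subst hg'
    exact ⟨R, hR, fun n m => by rw [hg n m]; simp⟩
  | pair _ _ ih1 ih2 =>
    obtain ⟨R1, h1, e1⟩ := ih1
    obtain ⟨R2, h2, e2⟩ := ih2
    refine ⟨_, h.op_mem' (0, 0, 0) h1 h2, fun n m => ?_⟩
    simp only [op, e1, e2]
    simp only [Seq.seq, Part.map_eq_map, Part.mem_bind_iff, Part.mem_map_iff]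
    constructor
    · rintro ⟨u, v, hu, hv, rfl⟩
      exact ⟨_, ⟨u, hu, rfl⟩, v, hv, rfl⟩
    · rintro ⟨_, ⟨u, hu, rfl⟩, v, hv, rfl⟩
      exact ⟨u, v, hu, hv, rfl⟩
  | comp _ _ ih1 ih2 =>
    obtain ⟨R1, h1, e1⟩ := ih1
    obtain ⟨R2, h2, e2⟩ := ih2
    refine ⟨_, h.op_mem' (1, 0, 0) h1 h2, fun n m => ?_⟩
    simp only [op, e1, e2, Part.bind_eq_bind, Part.mem_bind_iff]
  | prec _ _ ih1 ih2 =>
    obtain ⟨R1, h1, e1⟩ := ih1
    obtain ⟨R2, h2, e2⟩ := ih2
    refine ⟨_, h.op_mem' (2, 0, 0) h1 h2, fun p m => ?_⟩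
    simp only [op]
    generalize (Nat.unpair p).1 = x
    generalize (Nat.unpair p).2 = n
    induction n generalizing m with
    | zero => simp only [precRel, e1]; rfl
    | succ n ih => simp only [precRel, e2, ih, Part.bind_eq_bind, Part.mem_bind_iff]
  | rfind _ ih1 =>
    obtain ⟨R1, h1, e1⟩ := ih1
    refine ⟨_, h.op_mem' (3, 0, 0) h1 h1, fun x n => ?_⟩
    simp only [op, e1, Nat.mem_rfind, Part.map_eq_map, Part.mem_map_iff]
    constructor
    · rintro ⟨h0, hj⟩
      refine ⟨⟨0, h0, by simp⟩, fun {j} hjn => ?_⟩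
      obtain ⟨v, hv, hv'⟩ := hj j hjn
      exact ⟨v, hv', by simpa using hv⟩
    · rintro ⟨⟨v, hv, hv'⟩, hj⟩
      have : v = 0 := by simpa using hv'
      subst this
      refine ⟨hv, fun j hjn => ?_⟩
      obtain ⟨w, hw, hw'⟩ := hj hjn
      exact ⟨w, by simpa using hw', hw⟩

theorem Fam.turing {E : ℕ → Fn} (h : Fam E) {a f g : ℕ → ℕ} {R : Fn} (hR : R ∈ range E)
    (hg : Gr R a g) (hf : TuringReducible (f : ℕ →. ℕ) (g : ℕ →. ℕ)) :
    ∃ R' ∈ range E, Gr R' a f := by
  obtain ⟨R', h1, h2⟩ := h.recursiveIn hR hg (RecursiveIn.iff_nat.1 hf)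
  exact ⟨R', h1, fun n m => by rw [h2]; simp⟩

theorem exists_seq_dc {X : Type} (x0 : X) (r : ℕ → X → X → Prop) (h : ∀ n x, ∃ y, r n x y) :
    ∃ s : ℕ → X, s 0 = x0 ∧ ∀ n, r n (s n) (s (n + 1)) := by
  choose F hF using h
  exact ⟨fun n => Nat.rec x0 (fun n x => F n x) n, rfl, fun n => hF n _⟩

/-- `x` is not the graph of a member of the family at the oracle `a`. -/
def Good (E : ℕ → Fn) (x a : ℕ → ℕ) : Prop := ∀ R ∈ range E, ¬ Gr R a x

theorem Fam.cone_step {E : ℕ → Fn} (h : Fam E) {x a : ℕ → ℕ} (hg : Good E x a) {W F : Fn}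
    (hW : W ∈ range E) (hF : F ∈ range E) (hne : ∃ p ∈ KK, ¬ W (join a p) 0 0) :
    ∃ W' ∈ range E, (∃ p ∈ KK, ¬ W' (join a p) 0 0) ∧ (∀ b, W b 0 0 → W' b 0 0) ∧
      ∀ p ∈ KK, ¬ W' (join a p) 0 0 → ¬ Gr F (join a p) x := by
  have hs := hg _ (h.op_mem' (8, 0, 0) hW hF)
  simp only [Gr, not_forall] at hs
  obtain ⟨n, m, hnm⟩ := hs
  simp only [op] at hnm
  by_cases hm : m = x n
  · subst hm
    simp only [iff_true, not_forall, not_or] at hnm
    obtain ⟨p, hp, h1, h2⟩ := hnm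
    refine ⟨_, h.op_mem' (7, n, x n) hW hF, ⟨p, hp, ?_⟩, fun b hb => Or.inl hb, ?_⟩
    · simp only [op, not_or]; exact ⟨h1, h2⟩
    · intro q _ hq hG
      exact hq (Or.inr ((hG n (x n)).2 rfl))
  · simp only [hm, iff_false, not_not] at hnm
    refine ⟨W, hW, hne, fun b hb => hb, ?_⟩
    intro q hq hq' hG
    rcases hnm q hq with h1 | h1
    · exact hq' h1
    · exact hm ((hG n m).1 h1)

theorem Fam.cone {E : ℕ → Fn} (h : Fam E) {x a : ℕ → ℕ} (hg : Good E x a) {W : Fn}
    (hW : W ∈ range E) (hne : ∃ p ∈ KK, ¬ W (join a p) 0 0) :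
    ∃ p ∈ KK, ¬ W (join a p) 0 0 ∧ Good E x (join a p) := by
  let X := {W : Fn // W ∈ range E ∧ ∃ p ∈ KK, ¬ W (join a p) 0 0}
  obtain ⟨s, hs0, hs⟩ := exists_seq_dc (X := X) ⟨W, hW, hne⟩
    (fun e W W' => (∀ b, W.1 b 0 0 → W'.1 b 0 0) ∧
      ∀ p ∈ KK, ¬ W'.1 (join a p) 0 0 → ¬ Gr (E e) (join a p) x) (by
      rintro e ⟨W, hW, hne⟩
      obtain ⟨W', h1, h2, h3⟩ := h.cone_step hg hW ⟨e, rfl⟩ hne
      exact ⟨⟨W', h1, h2⟩, h3⟩)
  let t : ℕ → Set (ℕ → ℕ) := fun n => KK ∩ {p | ¬ (s n).1 (join a p) 0 0}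
  have hcl : ∀ n, IsClosed {p | ¬ (s n).1 (join a p) 0 0} := by
    intro n
    have : IsOpen {p | (s n).1 (join a p) 0 0} :=
      (h.opn' (s n).2.1 0 0).preimage
        (continuous_join.comp (continuous_const.prodMk continuous_id))
    exact this.isClosed_compl
  obtain ⟨p, hp⟩ := IsCompact.nonempty_iInter_of_sequence_nonempty_isCompact_isClosed t
    (fun i q hq => ⟨hq.1, fun h' => hq.2 ((hs i).1 _ h')⟩)
    (fun i => by
      obtain ⟨q, hq, hq'⟩ := (s i).2.2
      exact ⟨q, hq, hq'⟩)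
    (isCompact_KK.inter_right (hcl 0))
    (fun i => isCompact_KK.isClosed.inter (hcl i))
  rw [mem_iInter] at hp
  refine ⟨p, (hp 0).1, ?_, ?_⟩
  · have := (hp 0).2
    rw [hs0] at this
    exact this
  · rintro R ⟨e, rfl⟩
    exact (hs e).2 p (hp 0).1 (hp (e + 1)).2

theorem initial_length (p : ℕ → ℕ) (n : ℕ) : (initial p n).length = n := by simp [initial]

theorem initial_prefix (p : ℕ → ℕ) {n m : ℕ} (h : n ≤ m) : initial p n <+: initial p m := by
  unfold initial
  refine List.IsPrefix.map _ ?_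
  have : List.range n = (List.range m).take n := by
    rw [List.take_range, min_eq_left h]
  rw [this]
  exact List.take_prefix _ _

theorem konig {T : Set (List ℕ)} (hT : IsInfBinTree T) : ∃ p ∈ KK, ∀ n, initial p n ∈ T := by
  let t : ℕ → Set (ℕ → ℕ) := fun n => KK ∩ {p | initial p n ∈ T}
  have hcl : ∀ n, IsClosed {p : ℕ → ℕ | initial p n ∈ T} := by
    intro n
    have : {p : ℕ → ℕ | initial p n ∈ T} =
        (fun p => Encodable.encode (initial p n)) ⁻¹' (Encodable.encode '' T) := by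
      ext p
      simp only [mem_ofPred_eq, mem_preimage]
      exact (Encodable.encode_injective.mem_set_image).symm
    rw [this]
    exact (isClosed_discrete _).preimage (continuous_initial_code n)
  have hlong : ∀ n, ∃ τ ∈ T, n ≤ τ.length := by
    intro n
    by_contra hc
    push Not at hc
    apply hT.infinite
    have hfin : {l : List (Fin 2) | l.length < n}.Finite := List.finite_length_lt _ _
    refine (hfin.image (List.map Fin.val)).subset ?_
    intro τ hτ
    refine ⟨τ.map fun i => if i = 0 then 0 else 1, by simpa using hc τ hτ, ?_⟩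
    rw [List.map_map]
    conv_rhs => rw [← List.map_id τ]
    apply List.map_congr_left
    intro i hi
    have := hT.binary τ hτ i hi
    by_cases h0 : i = 0
    · simp [h0]
    · simp [h0]; omega
  obtain ⟨p, hp⟩ := IsCompact.nonempty_iInter_of_sequence_nonempty_isCompact_isClosed t
    (fun i q hq => ⟨hq.1, hT.closed _ hq.2 _ (initial_prefix q (Nat.le_succ i))⟩)
    (fun i => by
      obtain ⟨τ, hτ, hl⟩ := hlong i
      refine ⟨fun j => τ.getD j 0, fun j => ?_, hT.closed τ hτ _ ?_⟩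
      · show τ.getD j 0 ≤ 1
        by_cases hj : j < τ.length
        · rw [List.getD_eq_getElem _ _ hj]
          exact hT.binary τ hτ _ (List.getElem_mem hj)
        · rw [List.getD_eq_default _ _ (by omega)]; omega
      · have : initial (fun j => τ.getD j 0) i = τ.take i := by
          apply List.ext_getElem
          · simp [initial, hl]
          · intro j h1 h2
            have hj : j < τ.length := by
              rw [initial_length] at h1; omega
            simp [initial, List.getElem?_eq_getElem hj]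
        rw [this]
        exact List.take_prefix _ _)
    (isCompact_KK.inter_right (hcl 0))
    (fun i => isCompact_KK.isClosed.inter (hcl i))
  rw [mem_iInter] at hp
  exact ⟨p, (hp 0).1, fun n => (hp n).2⟩

theorem chi_encode (T : Set (List ℕ)) (τ : List ℕ) : chi T (Encodable.encode τ) = 0 ↔ τ ∉ T := by
  have : Denumerable.ofNat (List ℕ) (Encodable.encode τ) = τ := Denumerable.ofNat_encode τ
  by_cases h : τ ∈ T
  · have h' : Denumerable.ofNat (List ℕ) (Encodable.encode τ) ∈ T := by rw [this]; exact h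
    simp only [chi, codeFn]
    rw [if_pos h']; simp [h]
  · have h' : Denumerable.ofNat (List ℕ) (Encodable.encode τ) ∉ T := by rw [this]; exact h
    simp only [chi, codeFn]
    rw [if_neg h']; simp [h]

theorem Fam.step {E : ℕ → Fn} (h : Fam E) {x a : ℕ → ℕ} (hg : Good E x a) {R : Fn}
    (hR : R ∈ range E) : ∃ p, Good E x (join a p) ∧
      ∀ T : Set (List ℕ), IsInfBinTree T → Gr R a (chi T) → ∀ n, initial p n ∈ T := by
  by_cases hex : ∃ T : Set (List ℕ), IsInfBinTree T ∧ Gr R a (chi T)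
  · obtain ⟨T, hT, hRT⟩ := hex
    have key : ∀ T' : Set (List ℕ), Gr R a (chi T') → ∀ p,
        (¬ op (6, 0, 0) R R (join a p) 0 0 ↔ ∀ n, initial p n ∈ T') := by
      intro T' hT' p
      simp only [op, p0_join, p1_join, not_exists]
      refine forall_congr' fun n => ?_
      rw [hT', eq_comm, chi_encode, not_not]
    obtain ⟨q, hq, hq'⟩ := konig hT
    obtain ⟨p, -, h1, h2⟩ := h.cone hg (h.op_mem' (6, 0, 0) hR hR) ⟨q, hq, (key T hRT q).2 hq'⟩
    exact ⟨p, h2, fun T' _ hT' => (key T' hT' p).1 h1⟩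
  · obtain ⟨p, -, -, h2⟩ := h.cone hg h.bot ⟨fun _ => 0, fun i => by simp, by simp⟩
    exact ⟨p, h2, fun T hT hRT => absurd ⟨T, hT, hRT⟩ hex⟩

theorem Fam.shift_iter {E : ℕ → Fn} (h : Fam E) {R : Fn} (hR : R ∈ range E) (j : ℕ) :
    (fun b => R (p0^[j] b)) ∈ range E := by
  induction j with
  | zero => exact hR
  | succ j ih => exact h.op_mem' (4, 0, 0) ih ih

theorem Fam.exists_scott {E : ℕ → Fn} (h : Fam E) {x a0 : ℕ → ℕ} (hg : Good E x a0) :
    ∃ I : Set (ℕ → ℕ), IsScottIdeal I ∧ x ∉ I ∧ ∀ R ∈ range E, ∀ f, Gr R a0 f → f ∈ I := by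
  let X := {a : ℕ → ℕ // Good E x a}
  obtain ⟨s, hs0, hs⟩ := exists_seq_dc (X := X) ⟨a0, hg⟩
    (fun k a a' => ∃ p, a'.1 = join a.1 p ∧ ∀ T : Set (List ℕ), IsInfBinTree T →
      Gr (fun b => E (Nat.unpair k).1 (p0^[k - (Nat.unpair k).2] b)) a.1 (chi T) →
        ∀ n, initial p n ∈ T) (by
      rintro k ⟨a, ha⟩
      obtain ⟨p, h1, h2⟩ := h.step ha (h.shift_iter ⟨(Nat.unpair k).1, rfl⟩ (k - (Nat.unpair k).2))
      exact ⟨⟨join a p, h1⟩, p, rfl, h2⟩)
  have hdown : ∀ j m, p0^[j] (s (m + j)).1 = (s m).1 := by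
    intro j m
    induction j with
    | zero => rfl
    | succ j ih =>
      obtain ⟨p, hp, -⟩ := hs (m + j)
      rw [Function.iterate_succ_apply, ← add_assoc, hp, p0_join, ih]
  have hlift : ∀ {m k : ℕ} {R : Fn} {f : ℕ → ℕ}, m ≤ k → Gr R (s m).1 f →
      Gr (fun b => R (p0^[k - m] b)) (s k).1 f := by
    intro m k R f hmk hR n v
    have := hdown (k - m) m
    rw [Nat.add_sub_cancel' hmk] at this
    simp only [this]
    exact hR n v
  let I : Set (ℕ → ℕ) := {f | ∃ m, ∃ R ∈ range E, Gr R (s m).1 f}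
  have hle : ∀ f g : ℕ → ℕ, TuringReducible (f : ℕ →. ℕ) (g : ℕ →. ℕ) → g ∈ I → f ∈ I := by
    rintro f g hfg ⟨m, R, hR, hG⟩
    obtain ⟨R', h1, h2⟩ := h.turing hR hG hfg
    exact ⟨m, R', h1, h2⟩
  refine ⟨I, ⟨⟨⟨_, 0, _, h.zero, fun n m => Iff.rfl⟩, ?_, hle⟩, ?_⟩, ?_, ?_⟩
  · rintro f ⟨m1, R1, h1, G1⟩ g ⟨m2, R2, h2, G2⟩
    refine ⟨max m1 m2, _, h.op_mem' (5, 0, 0) (h.shift_iter h1 (max m1 m2 - m1))
      (h.shift_iter h2 (max m1 m2 - m2)), fun n v => ?_⟩
    simp only [op, join]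
    split_ifs
    · exact hlift (le_max_left _ _) G1 _ _
    · exact hlift (le_max_right _ _) G2 _ _
  · intro a ha T hT hTa
    obtain ⟨m, _, ⟨e, rfl⟩, hG⟩ := hle _ _ hTa ha
    obtain ⟨p, hp, hp'⟩ := hs (Nat.pair e m)
    refine ⟨p, ⟨Nat.pair e m + 1, _, h.pone, fun n v => ?_⟩, hp' T hT ?_⟩
    · rw [hp]; simp only [graphFn, p1_join]
    · rw [Nat.unpair_pair]
      exact hlift (Nat.right_le_pair e m) hG
  · rintro ⟨m, R, hR, hG⟩
    exact (s m).2 R hR hG
  · intro R hR f hf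
    exact ⟨0, R, hR, by rw [hs0]; exact hf⟩

/-- The oracle with a single mark in column `n` at row `t n - 1`, or none if `t n = 0`. -/
def marks (t : ℕ → ℕ) : ℕ → ℕ :=
  fun j => if t (Nat.unpair j).1 = (Nat.unpair j).2 + 1 then 1 else 0

/-- Whether column `n` is marked. -/
def jump (t : ℕ → ℕ) : ℕ → ℕ := fun n => if t n = 0 then 0 else 1

theorem continuous_marks : Continuous marks :=
  continuous_pi fun j => (continuous_of_discreteTopology
    (f := fun v : ℕ => if v = (Nat.unpair j).2 + 1 then 1 else 0)).comp (continuous_apply _)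

theorem exists_cylinder {U : Set (ℕ → ℕ)} (hU : IsOpen U) {a : ℕ → ℕ} (ha : a ∈ U) :
    ∃ N : ℕ, ∀ b : ℕ → ℕ, (∀ i < N, b i = a i) → b ∈ U := by
  obtain ⟨_, ⟨x, N, rfl⟩, h1, h2⟩ :=
    (PiNat.isTopologicalBasis_cylinders (fun _ => ℕ)).exists_subset_of_mem_open ha hU
  refine ⟨N, fun b hb => h2 fun i hi => ?_⟩
  rw [hb i hi]
  exact h1 i hi

theorem exists_good {E : ℕ → Fn} (h : ∀ e, Opn (E e)) :
    ∃ t : ℕ → ℕ, Good E (jump t) (marks t) := by
  let D : ℕ → Set (ℕ → ℕ) := fun e => interior {t | ¬ Gr (E e) (marks t) (jump t)}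
  have hD : ∀ e, Dense (D e) := by
    intro e
    rw [dense_iff_inter_open]
    rintro U hU ⟨t0, ht0⟩
    obtain ⟨L, hL⟩ := exists_cylinder hU ht0
    by_cases hex : ∃ t : ℕ → ℕ, (∀ i < L, t i = t0 i) ∧ t L = 0 ∧ E e (marks t) L 0
    · obtain ⟨t, h1, h2, h3⟩ := hex
      obtain ⟨N, hN⟩ := exists_cylinder (h e L 0) h3
      let t' : ℕ → ℕ := Function.update t L (N + 1)
      refine ⟨t', hL t' fun i hi => ?_, ?_⟩
      · simp only [t']
        rw [Function.update_of_ne (by omega), h1 i hi]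
      · have hopen : IsOpen ({u : ℕ → ℕ | E e (marks u) L 0} ∩ {u | u L = N + 1}) :=
          ((h e L 0).preimage continuous_marks).inter
            ((isOpen_discrete {N + 1}).preimage
              (continuous_apply L : Continuous fun u : ℕ → ℕ => u L))
        refine interior_maximal ?_ hopen ⟨hN _ fun j hj => ?_, by simp [t']⟩
        · rintro u ⟨hu1, hu2⟩ hG
          have := (hG L 0).1 hu1
          simp only [mem_ofPred_eq] at hu2
          simp [jump, hu2] at this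
        · simp only [marks]
          by_cases hj1 : (Nat.unpair j).1 = L
          · have := Nat.unpair_right_le j
            have e1 : t' L = N + 1 := by simp [t']
            rw [hj1, e1, h2, if_neg (by omega), if_neg (by omega)]
          · have e1 : t' (Nat.unpair j).1 = t (Nat.unpair j).1 := Function.update_of_ne hj1 _ _
            rw [e1]
    · push Not at hex
      let t' : ℕ → ℕ := Function.update t0 L 0
      have hopen : IsOpen (PiNat.cylinder t' (L + 1)) := PiNat.isOpen_cylinder _ _ _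
      refine ⟨t', hL t' fun i hi => ?_, interior_maximal ?_ hopen (PiNat.self_mem_cylinder _ _)⟩
      · simp only [t']
        rw [Function.update_of_ne (by omega)]
      · intro u hu hG
        have hu0 : u L = 0 := by
          rw [hu L (Nat.lt_succ_self L)]; simp [t']
        refine hex u (fun i hi => ?_) hu0 ((hG L 0).2 (by simp [jump, hu0]))
        rw [hu i (by omega)]
        simp only [t']
        rw [Function.update_of_ne (by omega)]
  obtain ⟨t, ht⟩ := (dense_iInter_of_isOpen (fun e => isOpen_interior) hD).nonempty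
  refine ⟨t, ?_⟩
  rintro R ⟨e, rfl⟩
  exact interior_subset (mem_iInter.1 ht e)

/-- A Scott ideal containing the values of countably many continuous functionals at an oracle
but not the jump-like function. -/
theorem exists_scott_ideal {K : Type} [Countable K] (Φ : K → (ℕ → ℕ) → ℕ → ℕ)
    (hΦ : ∀ k, Continuous (Φ k)) :
    ∃ (t : ℕ → ℕ) (I : Set (ℕ → ℕ)), IsScottIdeal I ∧ jump t ∉ I ∧ ∀ k, Φ k (marks t) ∈ I := by
  obtain ⟨E, hE, hk⟩ := exists_fam Φ hΦ
  obtain ⟨t, ht⟩ := exists_good hE.opn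
  obtain ⟨I, h1, h2, h3⟩ := hE.exists_scott ht
  exact ⟨t, I, h1, h2, fun k => h3 _ (hk k) _ fun n m => Iff.rfl⟩

theorem IsTuringIdeal.comp_mem {I : Set (ℕ → ℕ)} (hI : IsTuringIdeal I) {f g : ℕ → ℕ}
    (hf : f ∈ I) (hg : g ∈ I) : f ∘ g ∈ I := by
  refine hI.mem_of_le _ _ ?_ (hI.join_mem f hf g hg)
  apply RecursiveIn.iff_nat.2
  have ho : Nat.RecursiveIn {((join f g : ℕ → ℕ) : ℕ →. ℕ)} ((join f g : ℕ → ℕ) : ℕ →. ℕ) :=
    .oracle _ rfl
  have h1 : Nat.Primrec fun n => 2 * n :=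
    Primrec.nat_iff.1 (Primrec.nat_mul.comp (Primrec.const 2) Primrec.id)
  have h2 : Nat.Primrec fun n => 2 * n + 1 :=
    Primrec.nat_iff.1 (Primrec.succ.comp (Primrec.nat_mul.comp (Primrec.const 2) Primrec.id))
  refine ((ho.comp h1.recursiveIn).comp (ho.comp h2.recursiveIn)).of_eq fun n => ?_
  have e1 := congrFun (p1_join f g) n
  have e2 := congrFun (p0_join f g) (g n)
  simp only [p0, p1] at e1 e2
  simp [e1, e2]

end Pool.Agent.Lib.MP_eef9c4_lc
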