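import Mathlib
import Pool.Agent.Lib.MP_eef9c4_lc.Soft

set_option autoImplicit false

open Set Topology Filter

namespace Pool.Agent.Lib.MP_eef9c4_lc

/-- Index set of the blocks. -/
abbrev Ix := ℕ × ℕ × Fin 3

/-- The points. -/
abbrev Om := Ix × ZMod 2 × ZMod 2

/-- A product of Heisenberg elements acting blockwise. -/
def heis (α β γ : Ix → ZMod 2) : Equiv.Perm Om where
  toFun w := (w.1, w.2.1 + β w.1, w.2.2 + α w.1 * w.2.1 + γ w.1)
  invFun w := (w.1, w.2.1 - β w.1, w.2.2 - α w.1 * (w.2.1 - β w.1) - γ w.1)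
  left_inv := by
    rintro ⟨i, u, v⟩
    simp only [Prod.mk.injEq, true_and]
    constructor <;> ring
  right_inv := by
    rintro ⟨i, u, v⟩
    simp only [Prod.mk.injEq, true_and]
    constructor <;> ring

theorem heis_apply (α β γ : Ix → ZMod 2) (w : Om) :
    heis α β γ w = (w.1, w.2.1 + β w.1, w.2.2 + α w.1 * w.2.1 + γ w.1) := rfl

theorem heis_mul (α β γ α' β' γ' : Ix → ZMod 2) :
    heis α β γ * heis α' β' γ' = heis (α + α') (β + β') (γ + γ' + α * β') := by
  ext1 ⟨i, u, v⟩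
  simp only [Equiv.Perm.mul_apply, heis_apply, Pi.add_apply, Pi.mul_apply, Prod.mk.injEq,
    true_and]
  constructor <;> ring

theorem heis_zero : heis 0 0 0 = 1 := by
  ext1 ⟨i, u, v⟩
  simp [heis_apply]

theorem heis_inv (α β γ : Ix → ZMod 2) :
    (heis α β γ)⁻¹ = heis (-α) (-β) (α * β - γ) := by
  rw [inv_eq_iff_mul_eq_one, heis_mul, ← heis_zero]
  congr 1 <;> ring

theorem heis_comm_iff (α β γ α' β' γ' : Ix → ZMod 2) :
    heis α β γ * heis α' β' γ' = heis α' β' γ' * heis α β γ ↔ ∀ i, α i * β' i = α' i * β i := by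
  rw [heis_mul, heis_mul]
  constructor
  · intro h i
    have := congrArg (fun g : Equiv.Perm Om => (g (i, 0, 0)).2.2) h
    simp only [heis_apply, Pi.add_apply, Pi.mul_apply] at this
    linear_combination this
  · intro h
    have : α * β' = α' * β := funext h
    rw [this]
    congr 1 <;> ring

/-- A numbering of the points. -/
noncomputable def num : Om ≃ ℕ := Classical.choice nonempty_equiv_of_countable

/-- The Heisenberg elements as permutations of `ℕ`. -/
noncomputable def hs (α β γ : Ix → ZMod 2) : Equiv.Perm ℕ := num.permCongrHom (heis α β γ)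

theorem hs_apply (α β γ : Ix → ZMod 2) (m : ℕ) :
    hs α β γ m = num (heis α β γ (num.symm m)) := rfl

theorem hs_mul (α β γ α' β' γ' : Ix → ZMod 2) :
    hs α β γ * hs α' β' γ' = hs (α + α') (β + β') (γ + γ' + α * β') := by
  unfold hs
  rw [← map_mul, heis_mul]

theorem hs_zero : hs 0 0 0 = 1 := by
  unfold hs
  rw [heis_zero, map_one]

theorem hs_inv (α β γ : Ix → ZMod 2) : (hs α β γ)⁻¹ = hs (-α) (-β) (α * β - γ) := by
  unfold hs
  rw [← map_inv, heis_inv]

theorem hs_comm_iff (α β γ α' β' γ' : Ix → ZMod 2) :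
    hs α β γ * hs α' β' γ' = hs α' β' γ' * hs α β γ ↔ ∀ i, α i * β' i = α' i * β i := by
  unfold hs
  rw [← map_mul, ← map_mul, num.permCongrHom.injective.eq_iff, heis_comm_iff]

theorem hs_congr {α β γ α' β' γ' : Ix → ZMod 2} {m : ℕ}
    (h1 : α (num.symm m).1 = α' (num.symm m).1) (h2 : β (num.symm m).1 = β' (num.symm m).1)
    (h3 : γ (num.symm m).1 = γ' (num.symm m).1) : hs α β γ m = hs α' β' γ' m := by
  rw [hs_apply, hs_apply, heis_apply, heis_apply, h1, h2, h3]

/-- The first coordinates. -/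
def lam (a : ℕ → ℕ) (x : ZMod 2) (s : ℕ → ZMod 2) : Ix → ZMod 2 := fun i =>
  ![s i.1, (a (Nat.pair i.1 i.2.1) : ZMod 2) * x, (a (Nat.pair i.1 i.2.1) : ZMod 2) * s i.1] i.2.2

/-- The second coordinates. -/
def mu (z : ZMod 2) (y : ℕ → ZMod 2) : Ix → ZMod 2 := fun i => ![y i.1, y i.1, z] i.2.2

theorem lam_add (a : ℕ → ℕ) (x x' : ZMod 2) (s s' : ℕ → ZMod 2) :
    lam a x s + lam a x' s' = lam a (x + x') (s + s') := by
  funext ⟨n, k, j⟩
  fin_cases j <;> simp [lam, mul_add]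

theorem mu_add (z z' : ZMod 2) (y y' : ℕ → ZMod 2) : mu z y + mu z' y' = mu (z + z') (y + y') := by
  funext ⟨n, k, j⟩
  fin_cases j <;> simp [mu]

theorem lam_neg (a : ℕ → ℕ) (x : ZMod 2) (s : ℕ → ZMod 2) : -lam a x s = lam a (-x) (-s) := by
  funext ⟨n, k, j⟩
  fin_cases j <;> simp [lam]

theorem mu_neg (z : ZMod 2) (y : ℕ → ZMod 2) : -mu z y = mu (-z) (-y) := by
  funext ⟨n, k, j⟩
  fin_cases j <;> simp [mu]

theorem lam_zero (a : ℕ → ℕ) : lam a 0 0 = 0 := by
  funext ⟨n, k, j⟩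
  fin_cases j <;> simp [lam]

theorem mu_zero : mu 0 0 = 0 := by
  funext ⟨n, k, j⟩
  fin_cases j <;> simp [mu]

/-- The group attached to the oracle `a`. -/
def grp (a : ℕ → ℕ) : Subgroup (Equiv.Perm ℕ) where
  carrier := {g | ∃ x s z y γ, g = hs (lam a x s) (mu z y) γ}
  mul_mem' := by
    rintro _ _ ⟨x, s, z, y, γ, rfl⟩ ⟨x', s', z', y', γ', rfl⟩
    exact ⟨_, _, _, _, _, by rw [hs_mul, lam_add, mu_add]⟩
  one_mem' := ⟨0, 0, 0, 0, 0, by rw [lam_zero, mu_zero, hs_zero]⟩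
  inv_mem' := by
    rintro _ ⟨x, s, z, y, γ, rfl⟩
    exact ⟨_, _, _, _, _, by rw [hs_inv, lam_neg, mu_neg]⟩

theorem mem_grp {a : ℕ → ℕ} {g : Equiv.Perm ℕ} :
    g ∈ grp a ↔ ∃ x s z y γ, g = hs (lam a x s) (mu z y) γ := Iff.rfl

theorem isProfinite_grp (a : ℕ → ℕ) : IsProfinite (grp a) := by
  constructor
  · let F : ZMod 2 × (ℕ → ZMod 2) × ZMod 2 × (ℕ → ZMod 2) × (Ix → ZMod 2) → ℕ → ℕ :=
      fun q => hs (lam a q.1 q.2.1) (mu q.2.2.1 q.2.2.2.1) q.2.2.2.2
    have hF : Continuous F := by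
      refine continuous_pi fun m => ?_
      let i := (num.symm m).1
      let H : ZMod 2 × ZMod 2 × ZMod 2 × ZMod 2 × ZMod 2 → ℕ := fun q =>
        hs (lam a q.1 fun _ => q.2.1) (mu q.2.2.1 fun _ => q.2.2.2.1) (fun _ => q.2.2.2.2) m
      have : (fun q => F q m) = H ∘ fun q =>
          (q.1, q.2.1 i.1, q.2.2.1, q.2.2.2.1 i.1, q.2.2.2.2 i) := by
        funext q
        exact hs_congr rfl rfl rfl
      rw [this]
      refine continuous_of_discreteTopology.comp ?_
      fun_prop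
    have hcl : IsClosed (range F) := (isCompact_range hF).isClosed
    rw [@isClosed_induced_iff]
    refine ⟨range F, hcl, ?_⟩
    ext g
    constructor
    · rintro ⟨⟨x, s, z, y, γ⟩, hq⟩
      exact ⟨x, s, z, y, γ, (DFunLike.coe_injective hq).symm⟩
    · rintro ⟨x, s, z, y, γ, rfl⟩
      exact ⟨⟨x, s, z, y, γ⟩, rfl⟩
  · intro n
    refine (finite_range fun q : ZMod 2 × ZMod 2 => num ((num.symm n).1, q)).subset ?_
    rintro _ ⟨⟨_, x, s, z, y, γ, rfl⟩, rfl⟩
    exact ⟨_, rfl⟩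

theorem continuous_of_local {Φ : (ℕ → ℕ) → ℕ → ℕ}
    (h : ∀ n, ∃ N, ∀ a a' : ℕ → ℕ, (∀ j < N, a' j = a j) → Φ a' n = Φ a n) : Continuous Φ := by
  refine continuous_pi fun n => continuous_iff_continuousAt.2 fun a => ?_
  obtain ⟨N, hN⟩ := h n
  have : ∀ᶠ a' in 𝓝 a, Φ a' n = Φ a n := by
    filter_upwards [(PiNat.isOpen_cylinder _ a N).mem_nhds (PiNat.self_mem_cylinder a N)]
      with a' ha'
    exact hN a a' ha'
  exact Filter.EventuallyEq.continuousAt this

theorem exists_bound (M : ℕ) : ∃ N, ∀ a a' : ℕ → ℕ, (∀ j < N, a' j = a j) → ∀ m < M, ∀ x s,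
    lam a' x s (num.symm m).1 = lam a x s (num.symm m).1 := by
  obtain ⟨N, hN⟩ := ((finite_Iio M).image
    fun m => Nat.pair (num.symm m).1.1 (num.symm m).1.2.1).bddAbove
  refine ⟨N + 1, fun a a' h m hm x s => ?_⟩
  have := h _ (Nat.lt_succ_of_le (hN ⟨m, hm, rfl⟩))
  simp only [lam, this]

theorem tree_local (M : ℕ) : ∃ N, ∀ a a' : ℕ → ℕ, (∀ j < N, a' j = a j) → ∀ τ : List ℕ,
    τ.length ≤ M → (τ ∈ treeOf (grp a') ↔ τ ∈ treeOf (grp a)) := by
  obtain ⟨N, hN⟩ := exists_bound M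
  have key : ∀ a a' : ℕ → ℕ, (∀ j < N, a' j = a j) → ∀ τ : List ℕ,
      τ.length ≤ M → τ ∈ treeOf (grp a') → τ ∈ treeOf (grp a) := by
    rintro a a' h _ hl ⟨_, ⟨x, s, z, y, γ, rfl⟩, n, rfl⟩
    refine ⟨_, ⟨x, s, z, y, γ, rfl⟩, n, ?_⟩
    rw [initial_length] at hl
    unfold initial
    apply List.map_congr_left
    intro j hj
    have hj' : j / 2 < M := by
      have := List.mem_range.1 hj
      omega
    have e1 := hN a a' h _ hj' x s
    unfold join
    split_ifs
    · exact hs_congr e1 rfl rfl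
    · rw [hs_inv, hs_inv]
      refine hs_congr ?_ rfl ?_
      · simp only [Pi.neg_apply, e1]
      · simp only [Pi.sub_apply, Pi.mul_apply, e1]
  exact ⟨N, fun a a' h τ hτ => ⟨key a a' h τ hτ, key a' a (fun j hj => (h j hj).symm) τ hτ⟩⟩

theorem continuous_treeCode : Continuous fun a => treeCode (grp a) := by
  apply continuous_of_local
  intro n
  obtain ⟨N, hN⟩ := tree_local ((Denumerable.ofNat (List ℕ) (n / 2)).length + 1)
  refine ⟨N, fun a a' h => ?_⟩
  simp only [treeCode, join, chi, codeFn]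
  split_ifs with h0 h1 h2 h2
  · rfl
  · exact absurd ((hN a a' h _ (Nat.le_succ _)).1 h1) h2
  · exact absurd ((hN a a' h _ (Nat.le_succ _)).2 h2) h1
  · rfl
  · congr 1
    ext v
    exact hN a a' h _ (by simp)

/-- The first parameter. -/
noncomputable def pb (a : ℕ → ℕ) : Equiv.Perm ℕ := hs (lam a 0 1) (mu 0 0) 0

/-- The second parameter. -/
noncomputable def pc : Equiv.Perm ℕ := hs 0 (mu 1 0) 0

/-- Test elements. -/
noncomputable def ph (y : ℕ → ZMod 2) : Equiv.Perm ℕ := hs 0 (mu 0 y) 0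

theorem continuous_pb : Continuous fun a => (pb a : ℕ → ℕ) := by
  apply continuous_of_local
  intro n
  obtain ⟨N, hN⟩ := exists_bound (n + 1)
  exact ⟨N, fun a a' h => hs_congr (hN a a' h n (Nat.lt_succ_self n) _ _) rfl rfl⟩

/-- The functionals whose values must lie in the ideal. -/
noncomputable def fns (k : ℕ × ℕ) : (ℕ → ℕ) → ℕ → ℕ :=
  match k.1 with
  | 0 => fun a => treeCode (grp a)
  | 1 => fun a => pb a
  | 2 => fun _ => pc
  | 3 => fun _ => ph (Pi.single k.2 1)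
  | 4 => fun _ => ph 1
  | 5 => fun _ n => num ((n, 0, 0), 0, 0)
  | _ => fun _ m => if (num.symm m).2.2 = 0 then 1 else 0

theorem continuous_fns (k : ℕ × ℕ) : Continuous (fns k) := by
  obtain ⟨k, l⟩ := k
  match k with
  | 0 => exact continuous_treeCode
  | 1 => exact continuous_pb
  | 2 => exact continuous_const
  | 3 => exact continuous_const
  | 4 => exact continuous_const
  | 5 => exact continuous_const
  | k + 6 => exact continuous_const

theorem marks_pair (t : ℕ → ℕ) (n k : ℕ) :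
    (marks t (Nat.pair n k) : ZMod 2) = if t n = k + 1 then 1 else 0 := by
  simp [marks]

theorem zmod2_cases (u : ZMod 2) : u = 0 ∨ u = 1 := by
  revert u; decide

theorem holds_in_grp (t : ℕ → ℕ) : ∃ x ∈ grp (marks t), ∀ y ∈ grp (marks t),
    x * pc = pc * x ∧ (x * y = y * x →
      pb (marks t) * y = y * pb (marks t) ∨ pb (marks t) * (y * pc) = y * pc * pb (marks t)) := by
  refine ⟨_, ⟨1, fun n => if t n = 0 then 1 else 0, 0, 0, 0, rfl⟩, ?_⟩
  rintro _ ⟨x, s, z, y, γ, rfl⟩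
  constructor
  · rw [pc, hs_comm_iff]
    rintro ⟨n, k, j⟩
    fin_cases j
    · simp [lam, mu]
    · simp [lam, mu]
    · simp only [lam, mu, marks_pair]
      by_cases h : t n = k + 1 <;> simp [h]
  · intro h
    rw [hs_comm_iff, mu_zero] at h
    have hy : y = 0 := by
      funext n
      by_cases h0 : t n = 0
      · simpa [lam, mu, h0] using h (n, 0, 0)
      · obtain ⟨k, hk⟩ := Nat.exists_eq_succ_of_ne_zero h0
        simpa [lam, mu, marks_pair, hk] using h (n, k, 1)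
    subst hy
    rcases zmod2_cases z with rfl | rfl
    · left
      rw [pb, hs_comm_iff, mu_zero]
      simp
    · right
      have : (1 : ZMod 2) + 1 = 0 := by decide
      rw [pb, pc, hs_mul, mu_add, hs_comm_iff, this, add_zero (0 : ℕ → ZMod 2), mu_zero]
      simp

theorem fails_in_sub (t : ℕ → ℕ) {I : Set (ℕ → ℕ)} (hI : IsTuringIdeal I) (hJ : jump t ∉ I)
    (hf : ∀ k, fns k (marks t) ∈ I) :
    ¬ ∃ x ∈ subI (grp (marks t)) I, ∀ y ∈ subI (grp (marks t)) I,
      x * pc = pc * x ∧ (x * y = y * x →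
      pb (marks t) * y = y * pb (marks t) ∨ pb (marks t) * (y * pc) = y * pc * pb (marks t)) := by
  rintro ⟨_, ⟨⟨x, s, z, y, γ, rfl⟩, hxI⟩, h⟩
  have hph : ∀ w, ph w ∈ grp (marks t) := fun w => ⟨0, 0, 0, w, 0, by rw [lam_zero]; rfl⟩
  have hs_val : ∀ n, jump t n = if s n = 0 then 1 else 0 := by
    intro n
    obtain ⟨h1, h2⟩ := h (ph (Pi.single n 1)) ⟨hph _, hf (3, n)⟩
    rw [pc, hs_comm_iff] at h1
    by_cases h0 : t n = 0
    · have hne : s n ≠ 0 := by
        intro hs0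
        have : hs (lam (marks t) x s) (mu z y) γ * ph (Pi.single n 1) =
            ph (Pi.single n 1) * hs (lam (marks t) x s) (mu z y) γ := by
          rw [ph, hs_comm_iff]
          rintro ⟨n', k, j⟩
          by_cases hn : n' = n
          · subst hn
            fin_cases j <;> simp [lam, mu, marks_pair, h0, hs0]
          · fin_cases j <;> simp [lam, mu, hn]
        rcases h2 this with h3 | h3
        · rw [pb, ph, hs_comm_iff] at h3
          simpa [lam, mu] using h3 (n, 0, 0)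
        · rw [pb, ph, pc, hs_mul, hs_comm_iff] at h3
          simpa [lam, mu] using h3 (n, 0, 0)
      simp [jump, h0, hne]
    · obtain ⟨k, hk⟩ := Nat.exists_eq_succ_of_ne_zero h0
      have : s n = 0 := by simpa [lam, mu, marks_pair, hk] using h1 (n, k, 2)
      simp [jump, h0, this]
  apply hJ
  set g := hs (lam (marks t) x s) (mu z y) γ with hg
  have hall : (ph 1 : ℕ → ℕ) ∈ I := hf (4, 0)
  have hz : ((g * ph 1 * g * ph 1 * g * g : Equiv.Perm ℕ) : ℕ → ℕ) ∈ I := by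
    simp only [Equiv.Perm.coe_mul]
    exact hI.comp_mem (hI.comp_mem (hI.comp_mem (hI.comp_mem (hI.comp_mem hxI hall) hxI) hall)
      hxI) hxI
  have := hI.comp_mem (hI.comp_mem (hf (6, 0)) hz) (hf (5, 0))
  convert this using 1
  funext n
  rw [hs_val n]
  simp only [fns, Function.comp, hg, ph, hs_mul, hs_apply, Equiv.symm_apply_apply, heis_apply]
  simp only [lam, mu, Pi.add_apply, Pi.mul_apply, Pi.zero_apply, Pi.one_apply,
    Matrix.cons_val_zero]
  have key : ∀ u v w : ZMod 2, 0 + (u + 0 + u + 0 + u + u) * 0 +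
      (w + 0 + u * 1 + w + (u + 0) * v + 0 + (u + 0 + u) * 1 + w + (u + 0 + u + 0) * v + w +
        (u + 0 + u + 0 + u) * v) = u := by decide
  have := key (s n) (y n) (γ (n, 0, 0))
  by_cases h0 : s n = 0
  · rw [if_pos h0, if_pos (this.trans h0)]
  · rw [if_neg h0, if_neg (fun h' => h0 (this.symm.trans h'))]

theorem main : ∃ (I : Set (ℕ → ℕ)) (G : Subgroup (Equiv.Perm ℕ)) (b c : Equiv.Perm ℕ),
    IsScottIdeal I ∧ IsProfinite G ∧ treeCode G ∈ I ∧ b ∈ subI G I ∧ c ∈ subI G I ∧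
    (∃ x ∈ G, ∀ y ∈ G,
      x * c = c * x ∧ (x * y = y * x → b * y = y * b ∨ b * (y * c) = y * c * b)) ∧
    ¬ ∃ x ∈ subI G I, ∀ y ∈ subI G I,
      x * c = c * x ∧ (x * y = y * x → b * y = y * b ∨ b * (y * c) = y * c * b) := by
  obtain ⟨t, I, h1, h2, h3⟩ := exists_scott_ideal fns continuous_fns
  exact ⟨I, grp (marks t), pb (marks t), pc, h1, isProfinite_grp _, h3 (0, 0),
    ⟨⟨0, 1, 0, 0, 0, rfl⟩, h3 (1, 0)⟩, ⟨⟨0, 0, 1, 0, 0, by rw [lam_zero]; rfl⟩, h3 (2, 0)⟩,
    holds_in_grp t, fails_in_sub t h1.ideal h2 h3⟩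

end Pool.Agent.Lib.MP_eef9c4_lc
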