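import Pool.Agent.Lib.MP_eef9c4_lc.Q2Defs

set_option autoImplicit false

open Encodable

namespace Pool.Agent.Lib.MP_eef9c4_lc

/-! Closure properties of a Turing ideal, for functions between coded types. -/

variable {I : Set (ℕ → ℕ)} {α β γ : Type} [Primcodable α] [Primcodable β] [Primcodable γ]

/-- `f` is computed, on codes, by a member of `I`. -/
def InI (I : Set (ℕ → ℕ)) {α β : Type} [Primcodable α] [Primcodable β] (f : α → β) : Prop :=
  ∃ g ∈ I, ∀ a, g (encode a) = encode (f a)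

theorem InI.mem {f : ℕ → ℕ} (h : InI I f) : f ∈ I := by
  obtain ⟨g, hg, e⟩ := h
  rwa [show f = g from funext fun a => (e a).symm]

theorem inI_of_mem {f : ℕ → ℕ} (h : f ∈ I) : InI I f := ⟨f, h, fun _ => rfl⟩

theorem InI.of_eq {f g : α → β} (h : InI I f) (e : ∀ a, f a = g a) : InI I g :=
  (funext e : f = g) ▸ h

theorem rec_comp {O : Set (ℕ →. ℕ)} {f g : ℕ → ℕ} (hf : Nat.RecursiveIn O f)
    (hg : Nat.RecursiveIn O g) : Nat.RecursiveIn O (fun n => f (g n) : ℕ → ℕ) :=
  (hf.comp hg).of_eq fun n => by simp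

theorem mem_of_rec (hI : IsTuringIdeal I) {f g h : ℕ → ℕ} (hf : f ∈ I) (hg : g ∈ I)
    (H : Nat.RecursiveIn {(f : ℕ →. ℕ), (g : ℕ →. ℕ)} h) : h ∈ I := by
  refine hI.mem_of_le h _ (RecursiveIn.iff_nat.2 (H.subst fun k hk => ?_)) (hI.join_mem f hf g hg)
  have h0 : Nat.RecursiveIn {((join f g : ℕ → ℕ) : ℕ →. ℕ)} (join f g : ℕ → ℕ) := .oracle _ rfl
  have h2 : Primrec fun n : ℕ => 2 * n := Primrec.nat_mul.comp (.const 2) .id
  rcases hk with rfl | rfl
  · refine (rec_comp h0 (Primrec.nat_iff.1 h2).recursiveIn).of_eq fun n => ?_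
    simp [join]
  · refine (rec_comp h0 (Primrec.nat_iff.1 (Primrec.succ.comp h2)).recursiveIn).of_eq fun n => ?_
    have h4 : (2 * n + 1) / 2 = n := by omega
    simp [join, h4]

theorem InI.prim (hI : IsTuringIdeal I) {f : α → β} (hf : Primrec f) : InI I f := by
  obtain ⟨g, hg⟩ := hI.nonempty
  refine ⟨fun n => (encode ((decode (α := α) n).map f)).pred,
    mem_of_rec hI hg hg (Nat.Primrec.pred.comp hf).recursiveIn, fun a => ?_⟩
  simp

theorem InI.comp (hI : IsTuringIdeal I) {f : β → γ} {g : α → β} (hf : InI I f) (hg : InI I g) :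
    InI I fun a => f (g a) := by
  obtain ⟨f', h1, e1⟩ := hf
  obtain ⟨g', h2, e2⟩ := hg
  exact ⟨fun n => f' (g' n), mem_of_rec hI h1 h2 (rec_comp (.oracle _ (Or.inl rfl))
    (.oracle _ (Or.inr rfl))), fun a => (congrArg f' (e2 a)).trans (e1 _)⟩

theorem InI.pair (hI : IsTuringIdeal I) {f : α → β} {g : α → γ} (hf : InI I f) (hg : InI I g) :
    InI I fun a => (f a, g a) := by
  obtain ⟨f', h1, e1⟩ := hf
  obtain ⟨g', h2, e2⟩ := hg
  refine ⟨fun n => Nat.pair (f' n) (g' n), mem_of_rec hI h1 h2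
    ((Nat.RecursiveIn.pair (.oracle _ (Or.inl rfl)) (.oracle _ (Or.inr rfl))).of_eq fun n => ?_),
    fun a => congrArg₂ Nat.pair (e1 a) (e2 a)⟩
  simp [Seq.seq]

theorem InI.post (hI : IsTuringIdeal I) {g : α → β} (hg : InI I g) {f : β → γ} (hf : Primrec f) :
    InI I fun a => f (g a) :=
  (InI.prim hI hf).comp hI hg

theorem InI.pre (hI : IsTuringIdeal I) {f : β → γ} (hf : InI I f) {g : α → β} (hg : Primrec g) :
    InI I fun a => f (g a) :=
  hf.comp hI (InI.prim hI hg)

theorem InI.iter (hI : IsTuringIdeal I) {f : α → α} (hf : InI I f) :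
    InI I fun x : α × ℕ => f^[x.2] x.1 := by
  obtain ⟨g, h1, e1⟩ := hf
  refine ⟨fun n => g^[n.unpair.2] n.unpair.1, mem_of_rec hI h1 h1 ?_, fun x => ?_⟩
  · have h2 : Nat.RecursiveIn {(g : ℕ →. ℕ), (g : ℕ →. ℕ)}
        (fun n => g n.unpair.2.unpair.2 : ℕ → ℕ) :=
      rec_comp (.oracle _ (Or.inl rfl)) (rec_comp .right .right)
    refine (Nat.RecursiveIn.prec Nat.Primrec.id.recursiveIn h2).of_eq fun n => ?_
    change Nat.rec (motive := fun _ => Part ℕ) (Part.some n.unpair.1) (fun y IH => IH.bind fun i =>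
      Part.some (g (Nat.pair n.unpair.1 (Nat.pair y i)).unpair.2.unpair.2)) n.unpair.2 =
        Part.some (g^[n.unpair.2] n.unpair.1)
    induction n.unpair.2 with
    | zero => rfl
    | succ k ih =>
      dsimp only
      rw [ih]
      simp [Function.iterate_succ_apply']
  · obtain ⟨a, k⟩ := x
    simp only [encode_prod_val, Nat.unpair_pair, encode_nat]
    induction k with
    | zero => rfl
    | succ k ih => rw [Function.iterate_succ_apply', Function.iterate_succ_apply', ih, e1]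

theorem InI.find (hI : IsTuringIdeal I) [Inhabited α] {f : α × ℕ → ℕ} (hf : InI I f)
    (h : ∀ a, ∃ n, f (a, n) = 0) : ∃ g : α → ℕ, InI I g ∧ ∀ a, f (a, g a) = 0 := by
  obtain ⟨f', h1, e1⟩ := hf.pre hI (g := fun x : ℕ × ℕ => ((decode (α := α) x.1).getD default, x.2))
    ((Primrec.option_getD.comp (Primrec.decode.comp .fst) (.const _)).pair .snd)
  have e2 : ∀ c n, f' (Nat.pair c n) = f ((decode (α := α) c).getD default, n) :=
    fun c n => e1 (c, n)
  have h2 : ∀ c, ∃ n, f' (Nat.pair c n) = 0 := fun c =>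
    (h ((decode (α := α) c).getD default)).imp fun n hn => (e2 c n).trans hn
  refine ⟨fun a => Nat.find (h2 (encode a)), ⟨fun c => Nat.find (h2 c), mem_of_rec hI h1 h1
    ((Nat.RecursiveIn.rfind (.oracle _ (Or.inl rfl))).of_eq_tot fun c => ?_), fun _ => rfl⟩,
    fun a => ?_⟩
  · refine Nat.mem_rfind.2 ⟨?_, fun {m} hm => ?_⟩
    · simpa using Nat.find_spec (h2 c)
    · simpa using Nat.find_min (h2 c) hm
  · have h3 := (e2 _ _).symm.trans (Nat.find_spec (h2 (encode a)))
    rwa [encodek, Option.getD_some] at h3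

theorem InI.range_map (hI : IsTuringIdeal I) {f : α × ℕ → β} (hf : InI I f) :
    InI I fun x : α × ℕ => (List.range x.2).map fun i => f (x.1, i) := by
  have h1 : InI I fun y : α × List β => (y.1, y.2 ++ [f (y.1, y.2.length)]) :=
    (InI.prim hI .fst).pair hI (((InI.prim hI .snd).pair hI
      (hf.pre hI (Primrec.fst.pair (Primrec.list_length.comp .snd)))).post hI
        (f := fun z : List β × β => z.1 ++ [z.2]) Primrec.list_concat)
  refine (((h1.iter hI).pre hI (g := fun x : α × ℕ => ((x.1, ([] : List β)), x.2))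
    ((Primrec.fst.pair (.const _)).pair .snd)).post hI .snd).of_eq fun x => ?_
  obtain ⟨a, n⟩ := x
  have h2 : (fun y : α × List β => (y.1, y.2 ++ [f (y.1, y.2.length)]))^[n] (a, []) =
      (a, (List.range n).map fun i => f (a, i)) := by
    induction n with
    | zero => rfl
    | succ n ih => simp [Function.iterate_succ_apply', ih, List.range_succ]
  exact congrArg Prod.snd h2

theorem inI_initial (hI : IsTuringIdeal I) {p : ℕ → ℕ} (hp : p ∈ I) : InI I (initial p) :=
  ((((inI_of_mem hp).pre hI (Primrec.snd (α := ℕ))).range_map hI).pre hI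
    (g := fun n : ℕ => (0, n)) ((Primrec.const 0).pair .id)).of_eq fun _ => rfl

theorem inv_mem_ideal (hI : IsTuringIdeal I) {g : Equiv.Perm ℕ} (hg : (g : ℕ → ℕ) ∈ I) :
    ((g⁻¹ : Equiv.Perm ℕ) : ℕ → ℕ) ∈ I := by
  have h1 : InI I fun x : ℕ × ℕ => if g x.2 = x.1 then 0 else 1 :=
    (((inI_of_mem hg).pre hI .snd).pair hI (InI.prim hI .fst)).post hI
      (f := fun z : ℕ × ℕ => if z.1 = z.2 then 0 else 1)
      (Primrec.ite Primrec.eq (.const 0) (.const 1))
  obtain ⟨k, h2, h3⟩ := h1.find hI fun a => ⟨g⁻¹ a, if_pos (by simp)⟩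
  refine (h2.of_eq fun a => ?_).mem
  have h4 : g (k a) = a := by simpa using h3 a
  rw [Equiv.Perm.eq_inv_iff_eq, h4]

end Pool.Agent.Lib.MP_eef9c4_lc
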