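import Pool.Agent.Lib.MP_eef9c4_lc.Q2A

set_option autoImplicit false

open Encodable Filter Topology

namespace Pool.Agent.Lib.MP_eef9c4_lc

/-! The tree of a profinite group: paths, levels, and paths in a Scott ideal. -/

variable {I : Set (ℕ → ℕ)} {G : Subgroup (Equiv.Perm ℕ)}

theorem length_initial (p : ℕ → ℕ) (n : ℕ) : (initial p n).length = n := by simp [initial]

theorem initial_getElem? (p : ℕ → ℕ) (n k : ℕ) :
    (initial p n)[k]? = if k < n then some (p k) else none := by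
  unfold initial
  split_ifs with h
  · simp [h]
  · simp [not_lt.1 h]

theorem initial_eq_iff {p q : ℕ → ℕ} {n : ℕ} : initial p n = initial q n ↔ ∀ k < n, p k = q k := by
  simp [initial]

theorem initial_take (p : ℕ → ℕ) {m n : ℕ} (h : m ≤ n) : (initial p n).take m = initial p m := by
  simp [initial, ← List.map_take, List.take_range, h]

theorem initial_succ (p : ℕ → ℕ) (n : ℕ) : initial p (n + 1) = initial p n ++ [p n] := by
  simp [initial, List.range_succ]

/-- The path of a permutation. -/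
def pth (g : Equiv.Perm ℕ) : ℕ → ℕ := join g (g⁻¹ : Equiv.Perm ℕ)

/-- The node of level `n` on the path of a permutation. -/
def ini (g : Equiv.Perm ℕ) (n : ℕ) : List ℕ := initial (pth g) n

theorem pth_even (g : Equiv.Perm ℕ) (j : ℕ) : pth g (2 * j) = g j := by simp [pth, join]

theorem pth_odd (g : Equiv.Perm ℕ) (j : ℕ) : pth g (2 * j + 1) = g⁻¹ j := by
  have h : (2 * j + 1) / 2 = j := by omega
  simp [pth, join, h]

theorem ini_mem {g : Equiv.Perm ℕ} (hg : g ∈ G) (n : ℕ) : ini g n ∈ treeOf G := ⟨g, hg, n, rfl⟩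

theorem exists_ini {τ : List ℕ} (h : τ ∈ treeOf G) : ∃ g ∈ G, τ = ini g τ.length := by
  obtain ⟨g, hg, n, rfl⟩ := h
  exact ⟨g, hg, by rw [length_initial]; rfl⟩

theorem pth_mem_orbit {g : Equiv.Perm ℕ} (hg : g ∈ G) (k : ℕ) :
    pth g k ∈ MulAction.orbit G (k / 2) := by
  unfold pth join
  split_ifs
  · exact ⟨⟨g, hg⟩, rfl⟩
  · exact ⟨⟨g⁻¹, G.inv_mem hg⟩, rfl⟩

theorem exists_pth (hG : IsProfinite G) {p : ℕ → ℕ} (h : ∀ n, initial p n ∈ treeOf G) :
    ∃ g ∈ G, pth g = p := by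
  choose u hu e using fun n => exists_ini (h n)
  have e' : ∀ n, ∀ k < n, p k = pth (u n) k := fun n => initial_eq_iff.1 (by
    have := e n
    rwa [length_initial] at this)
  have h1 : ∀ j, ∀ᶠ n in atTop, u n j = p (2 * j) ∧ (u n)⁻¹ j = p (2 * j + 1) := fun j =>
    (eventually_gt_atTop (2 * j + 1)).mono fun n hn =>
      ⟨by rw [e' n _ (by omega), pth_even], by rw [e' n _ hn, pth_odd]⟩
  let g : Equiv.Perm ℕ :=
    { toFun := fun j => p (2 * j)
      invFun := fun j => p (2 * j + 1)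
      left_inv := fun j => by
        obtain ⟨n, h2, h3⟩ := ((h1 j).and (h1 (p (2 * j)))).exists
        beta_reduce
        rw [← h3.2, ← h2.1]
        simp
      right_inv := fun j => by
        obtain ⟨n, h2, h3⟩ := ((h1 j).and (h1 (p (2 * j + 1)))).exists
        beta_reduce
        rw [← h3.1, ← h2.2]
        simp }
  refine ⟨g, ?_, funext fun k => ?_⟩
  · let _ := TopologicalSpace.induced (fun g : Equiv.Perm ℕ => (g : ℕ → ℕ)) Pi.topologicalSpace
    refine hG.closed.mem_of_tendsto (b := atTop) (f := u) ?_ (Eventually.of_forall hu)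
    rw [nhds_induced, tendsto_comap_iff, tendsto_pi_nhds]
    exact fun j => tendsto_const_nhds.congr' ((h1 j).mono fun n hn => hn.1.symm)
  · obtain ⟨j, rfl | rfl⟩ := Nat.even_or_odd' k
    · exact pth_even g j
    · exact pth_odd g j

/-- Compactness. -/
theorem exists_limit (hG : IsProfinite G) (u : ℕ → Equiv.Perm ℕ) (hu : ∀ n, u n ∈ G) :
    ∃ g ∈ G, ∀ m, ∃ n, m ≤ n ∧ ini (u n) m = ini g m := by
  have h1 : ∀ k, ∃ a, ∀ᶠ n in (Ultrafilter.of (atTop : Filter ℕ) : Filter ℕ), pth (u n) k = a :=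
    fun k => by
      have h2 : ∀ᶠ n in (Ultrafilter.of (atTop : Filter ℕ) : Filter ℕ),
          ∃ a ∈ MulAction.orbit G (k / 2), pth (u n) k = a :=
        Eventually.of_forall fun n => ⟨_, pth_mem_orbit (hu n) k, rfl⟩
      exact ((Ultrafilter.eventually_exists_mem_iff (hG.finite_orbit _)).1 h2).imp
        fun _ h => h.2
  choose p hp using h1
  have h3 : ∀ m, ∃ n, m ≤ n ∧ ini (u n) m = initial p m := fun m =>
    ((((eventually_ge_atTop m).filter_mono (Ultrafilter.of_le _)).and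
      ((Set.finite_Iio m).eventually_all.2 fun k _ => hp k)).exists).imp
        fun n hn => ⟨hn.1, initial_eq_iff.2 hn.2⟩
  obtain ⟨g, hg, e⟩ := exists_pth hG (p := p) fun m => (h3 m).elim fun n hn =>
    hn.2 ▸ ini_mem (hu n) m
  exact ⟨g, hg, fun m => by rw [show ini g m = initial p m by rw [ini, e]]; exact h3 m⟩

/-- `L n` lists the nodes of level `n`. -/
def Levels (G : Subgroup (Equiv.Perm ℕ)) (L : ℕ → List (List ℕ)) : Prop :=
  ∀ n τ, τ ∈ L n ↔ ∃ g ∈ G, τ = ini g n

theorem children_finite (hG : IsProfinite G) (τ : List ℕ) :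
    {a : ℕ | τ ++ [a] ∈ treeOf G}.Finite := by
  refine (hG.finite_orbit (τ.length / 2)).subset fun a ha => ?_
  obtain ⟨g, hg, e⟩ := exists_ini ha
  rw [List.length_append, List.length_singleton, ini, initial_succ] at e
  rw [List.singleton_inj.1 (List.append_inj' e rfl).2]
  exact pth_mem_orbit hg _

theorem ncard_filter (A : Set ℕ) [DecidablePred (· ∈ A)] (B : ℕ) :
    ((List.range B).filter fun a => a ∈ A).length = {a : ℕ | a < B ∧ a ∈ A}.ncard := by
  rw [← List.toFinset_card_of_nodup (List.nodup_range.filter _), ← Set.ncard_coe_finset]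
  congr 1
  ext a
  simp

open Classical in
theorem inI_filter (hI : IsTuringIdeal I) {A : List ℕ → Set ℕ}
    (c1 : InI I fun x : List ℕ × ℕ => if x.2 ∈ A x.1 then 1 else 0) :
    InI I fun x : List ℕ × ℕ => (List.range x.2).filter fun a => a ∈ A x.1 := by
  have c3 : InI I fun x : List ℕ × ℕ => if x.2 ∈ A x.1 then [x.2] else [] :=
    ((c1.pair hI (InI.prim hI .snd)).post hI (f := fun z : ℕ × ℕ => if z.1 = 1 then [z.2] else [])
        (Primrec.ite (Primrec.eq.comp .fst (.const 1))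
          (Primrec.list_cons.comp .snd (.const [])) (.const []))).of_eq fun x => by
      split_ifs <;> simp_all
  refine ((c3.range_map hI).post hI Primrec.list_flatten).of_eq fun x => ?_
  induction List.range x.2 with
  | nil => rfl
  | cons a l ih =>
    rw [List.map_cons, List.flatten_cons, ih, List.filter_cons]
    split_ifs <;> simp_all

open Classical in
/-- A family of finite sets is listed from its membership relation and its cardinalities. -/
theorem exists_enum (hI : IsTuringIdeal I) {A : List ℕ → Set ℕ} (hA : ∀ τ, (A τ).Finite)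
    (c1 : InI I fun x : List ℕ × ℕ => if x.2 ∈ A x.1 then 1 else 0)
    (c2 : InI I fun τ => (A τ).ncard) :
    ∃ f : List ℕ → List ℕ, InI I f ∧ ∀ τ a, a ∈ f τ ↔ a ∈ A τ := by
  have c4 := inI_filter hI c1
  have c5 : InI I fun x : List ℕ × ℕ => (A x.1).ncard -
      ((List.range x.2).filter fun a => a ∈ A x.1).length :=
    ((c2.pre hI .fst).pair hI (c4.post hI .list_length)).post hI
      (f := fun z : ℕ × ℕ => z.1 - z.2) Primrec.nat_sub
  obtain ⟨b, c6, h6⟩ := c5.find hI fun τ => by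
    obtain ⟨B, hB⟩ := (hA τ).bddAbove
    refine ⟨B + 1, ?_⟩
    rw [ncard_filter, Nat.sub_eq_zero_iff_le]
    exact Set.ncard_le_ncard (fun a ha => ⟨Nat.lt_succ_of_le (hB ha), ha⟩)
      ((hA τ).subset fun a ha => ha.2)
  refine ⟨_, c4.comp hI ((InI.prim hI .id).pair hI c6), fun τ a => ?_⟩
  have h8 := h6 τ
  rw [ncard_filter, Nat.sub_eq_zero_iff_le] at h8
  simp only [List.mem_filter, List.mem_range, decide_eq_true_eq, id]
  exact ⟨fun h => h.2, fun h => (Set.eq_of_subset_of_ncard_le (fun a ha => ha.2) h8 (hA τ)).ge h⟩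

theorem exists_iter (hI : IsTuringIdeal I) {ch : List ℕ → List (List ℕ)} (c8 : InI I ch) :
    ∃ M : ℕ → List (List ℕ), InI I M ∧ M 0 = [[]] ∧
      ∀ n σ, σ ∈ M (n + 1) ↔ ∃ τ ∈ M n, σ ∈ ch τ := by
  have c9 : InI I fun l : List (List ℕ) =>
      ((List.range l.length).map fun i => ch (l.getD i [])).flatten :=
    (((c8.pre hI (g := fun x : List (List ℕ) × ℕ => x.1.getD x.2 [])
      (Primrec.list_getD [])).range_map hI).pre hI (g := fun l : List (List ℕ) => (l, l.length))
        (Primrec.id.pair .list_length)).post hI Primrec.list_flatten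
  refine ⟨_, (c9.iter hI).pre hI (g := fun n : ℕ => ([[]], n)) ((Primrec.const _).pair .id), rfl,
    fun n σ => ?_⟩
  dsimp only
  rw [Function.iterate_succ_apply']
  generalize (fun l : List (List ℕ) =>
    ((List.range l.length).map fun i => ch (l.getD i [])).flatten)^[n] [[]] = l
  simp only [List.mem_flatten, List.mem_map, List.mem_range, exists_exists_and_eq_and]
  constructor
  · rintro ⟨i, hi, h⟩
    rw [List.getD_eq_getElem _ _ hi] at h
    exact ⟨_, List.getElem_mem hi, h⟩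
  · rintro ⟨τ, hτ, h⟩
    obtain ⟨i, hi, rfl⟩ := List.getElem_of_mem hτ
    exact ⟨i, hi, by rwa [List.getD_eq_getElem _ _ hi]⟩

open Classical in
theorem inI_join (hI : IsTuringIdeal I) {T : Set (List ℕ)} {F : List ℕ → ℕ}
    (h : join (chi T) (codeFn F) ∈ I) : (InI I fun τ => if τ ∈ T then 1 else 0) ∧ InI I F := by
  have h2 : Primrec fun τ : List ℕ => 2 * encode τ := Primrec.nat_mul.comp (.const 2) .encode
  refine ⟨((inI_of_mem h).pre hI h2).of_eq fun τ => by simp [join, chi, codeFn],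
    ((inI_of_mem h).pre hI (Primrec.succ.comp h2)).of_eq fun τ => ?_⟩
  have h4 : (2 * encode τ + 1) / 2 = encode τ := by omega
  simp [join, codeFn, h4]

theorem exists_levels (hI : IsTuringIdeal I) (hG : IsProfinite G) (hT : treeCode G ∈ I) :
    ∃ L, InI I L ∧ Levels G L := by
  obtain ⟨c1, c2⟩ := inI_join hI hT
  obtain ⟨f, c3, h3⟩ := exists_enum hI (children_finite hG)
    (c1.pre hI (g := fun x : List ℕ × ℕ => x.1 ++ [x.2]) Primrec.list_concat) c2
  obtain ⟨M, c4, h4, h5⟩ := exists_iter hI (((InI.prim hI .id).pair hI c3).post hI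
    (f := fun z : List ℕ × List ℕ => z.2.map fun a => z.1 ++ [a])
    (Primrec.list_map .snd (Primrec.list_concat.comp₂ (Primrec.fst.comp₂ .left) .right)))
  refine ⟨M, c4, fun n => ?_⟩
  induction n with
  | zero => exact fun τ => h4 ▸ ⟨fun h => ⟨1, G.one_mem, List.mem_singleton.1 h⟩,
      fun ⟨g, _, e⟩ => List.mem_singleton.2 e⟩
  | succ n ih =>
    intro σ
    rw [h5]
    constructor
    · rintro ⟨τ, hτ, h⟩
      obtain ⟨a, ha, rfl⟩ := List.mem_map.1 h
      obtain ⟨g, -, rfl⟩ := (ih τ).1 hτ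
      obtain ⟨g', hg', e⟩ := exists_ini ((h3 _ _).1 ha)
      rw [List.length_append, List.length_singleton, ini, length_initial] at e
      exact ⟨g', hg', e⟩
    · rintro ⟨g, hg, rfl⟩
      have e : ini g n ++ [pth g n] = ini g (n + 1) := (initial_succ _ _).symm
      exact ⟨ini g n, (ih _).2 ⟨g, hg, rfl⟩, List.mem_map.2
        ⟨_, (h3 _ _).2 (show _ ∈ treeOf G from e ▸ ini_mem hg _), e⟩⟩

theorem ini_two (g : Equiv.Perm ℕ) (n : ℕ) :
    ini g (n + 2) = ini g n ++ [pth g n, pth g (n + 1)] := by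
  rw [ini, initial_succ, initial_succ, List.append_assoc]
  rfl

theorem ncard_pair (τ : List ℕ) : {c : ℕ | τ ++ [c.unpair.1, c.unpair.2] ∈ treeTwo G}.ncard =
    {p : ℕ × ℕ | τ ++ [p.1, p.2] ∈ treeTwo G}.ncard :=
  Set.ncard_preimage_of_injective_subset_range (f := Nat.unpair)
    (s := {p : ℕ × ℕ | τ ++ [p.1, p.2] ∈ treeTwo G}) Nat.pairEquiv.symm.injective
    fun p _ => Nat.surjective_unpair p

theorem mem_two {τ : List ℕ} {a b : ℕ} (h : τ ++ [a, b] ∈ treeTwo G) :
    ∃ g ∈ G, τ ++ [a, b] = ini g (τ.length + 2) ∧ a = pth g τ.length ∧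
      b = pth g (τ.length + 1) := by
  obtain ⟨g, hg, n, e⟩ := h
  have h1 : τ.length + 2 = 2 * (n + 1) := by simpa [length_initial] using congrArg List.length e
  have e' : τ ++ [a, b] = ini g (τ.length + 2) := by rw [h1]; exact e
  refine ⟨g, hg, e', ?_⟩
  rw [ini_two] at e'
  simpa using (List.append_inj' e' rfl).2

theorem two_finite (hG : IsProfinite G) (τ : List ℕ) :
    {c : ℕ | τ ++ [c.unpair.1, c.unpair.2] ∈ treeTwo G}.Finite := by
  refine (((hG.finite_orbit (τ.length / 2)).prod (hG.finite_orbit ((τ.length + 1) / 2))).preimage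
    (f := Nat.unpair) Nat.pairEquiv.symm.injective.injOn).subset fun c hc => ?_
  obtain ⟨g, hg, -, e1, e2⟩ := mem_two hc
  exact ⟨e1 ▸ pth_mem_orbit hg _, e2 ▸ pth_mem_orbit hg _⟩

theorem primrec_two : Primrec fun x : List ℕ × ℕ => x.1 ++ [x.2.unpair.1, x.2.unpair.2] :=
  Primrec.list_append.comp .fst (Primrec.list_cons.comp
    (Primrec.fst.comp (Primrec.unpair.comp .snd)) (Primrec.list_cons.comp
      (Primrec.snd.comp (Primrec.unpair.comp .snd)) (.const [])))

theorem exists_levels_two (hI : IsTuringIdeal I) (hG : IsProfinite G) (hT : twoCode G ∈ I) :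
    ∃ L, InI I L ∧ Levels G L := by
  obtain ⟨c1, c2⟩ := inI_join hI hT
  obtain ⟨f, c3, h3⟩ := exists_enum hI (two_finite hG) (c1.pre hI primrec_two)
    (c2.of_eq fun τ => (ncard_pair τ).symm)
  obtain ⟨M, c4, h4, h5⟩ := exists_iter hI (((InI.prim hI .id).pair hI c3).post hI
    (f := fun z : List ℕ × List ℕ => z.2.map fun c => z.1 ++ [c.unpair.1, c.unpair.2])
    (Primrec.list_map .snd (primrec_two.comp ((Primrec.fst.comp .fst).pair .snd)).to₂))
  have h6 : ∀ n τ, τ ∈ M n ↔ ∃ g ∈ G, τ = ini g (2 * n) := fun n => by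
    induction n with
    | zero => exact fun τ => h4 ▸ ⟨fun h => ⟨1, G.one_mem, List.mem_singleton.1 h⟩,
        fun ⟨g, _, e⟩ => List.mem_singleton.2 e⟩
    | succ n ih =>
      intro σ
      rw [h5]
      constructor
      · rintro ⟨τ, hτ, h⟩
        obtain ⟨a, ha, rfl⟩ := List.mem_map.1 h
        obtain ⟨g, -, rfl⟩ := (ih τ).1 hτ
        obtain ⟨g', hg', e, -⟩ := mem_two ((h3 _ _).1 ha)
        rw [ini, length_initial] at e
        exact ⟨g', hg', e⟩
      · rintro ⟨g, hg, rfl⟩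
        have e : ini g (2 * n) ++ [(Nat.pair (pth g (2 * n)) (pth g (2 * n + 1))).unpair.1,
            (Nat.pair (pth g (2 * n)) (pth g (2 * n + 1))).unpair.2] = ini g (2 * (n + 1)) := by
          rw [Nat.unpair_pair]
          exact (ini_two _ _).symm
        exact ⟨ini g (2 * n), (ih _).2 ⟨g, hg, rfl⟩, List.mem_map.2
          ⟨_, (h3 _ _).2 ⟨g, hg, n, e⟩, e⟩⟩
  refine ⟨_, (c4.pair hI (InI.prim hI .id)).post hI
    (f := fun z : List (List ℕ) × ℕ => z.1.map (List.take z.2))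
    (Primrec.list_map .fst (Primrec.list_take.comp (Primrec.snd.comp .fst) .snd).to₂),
    fun n τ => ?_⟩
  have e : ∀ g, (ini g (2 * n)).take n = ini g n := fun g => initial_take _ (by omega)
  rw [List.mem_map]
  constructor
  · rintro ⟨σ, hσ, rfl⟩
    obtain ⟨g, hg, rfl⟩ := (h6 _ _).1 hσ
    exact ⟨g, hg, e g⟩
  · rintro ⟨g, hg, rfl⟩
    exact ⟨_, (h6 _ _).2 ⟨g, hg, rfl⟩, e g⟩

theorem twoCode_mem (hI : IsTuringIdeal I) (hG : IsProfinite G) (hT : treeCode G ∈ I) :
    twoCode G ∈ I := by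
  classical
  obtain ⟨L, hL, hL'⟩ := exists_levels hI hG hT
  have c1 : InI I fun τ : List ℕ => if τ ∈ treeTwo G then 1 else 0 := by
    refine (((inI_join hI hT).1.pair hI (InI.prim hI .list_length)).post hI
      (f := fun z : ℕ × ℕ => if z.2 % 2 = 0 ∧ 0 < z.2 then z.1 else 0)
      (Primrec.ite ((Primrec.eq.comp (Primrec.nat_mod.comp .snd (.const 2)) (.const 0)).and
        (Primrec.nat_lt.comp (.const 0) .snd)) .fst (.const 0))).of_eq fun τ => ?_
    have e : τ ∈ treeTwo G ↔ (τ.length % 2 = 0 ∧ 0 < τ.length) ∧ τ ∈ treeOf G := by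
      constructor
      · rintro ⟨g, hg, n, rfl⟩
        exact ⟨by rw [length_initial]; omega, g, hg, _, rfl⟩
      · rintro ⟨h1, g, hg, n, rfl⟩
        rw [length_initial] at h1
        exact ⟨g, hg, n / 2 - 1, by congr 1; omega⟩
    simp only [e, ite_and]
  have c2 : InI I fun x : List ℕ × ℕ => if ∀ σ ∈ L (x.1.length + 2),
      Nat.pair (σ.getD x.1.length 0) (σ.getD (x.1.length + 1) 0) < x.2 then 0 else 1 :=
    (((hL.pre hI (Primrec.succ.comp (Primrec.succ.comp (Primrec.list_length.comp .fst)))).pair hI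
      (InI.prim hI ((Primrec.list_length.comp .fst).pair .snd))).post hI
      (f := fun z : List (List ℕ) × ℕ × ℕ => if ∀ σ ∈ z.1,
        Nat.pair (σ.getD z.2.1 0) (σ.getD (z.2.1 + 1) 0) < z.2.2 then 0 else 1)
      (Primrec.ite (PrimrecRel.forall_mem_list (R := fun (σ : List ℕ) (y : ℕ × ℕ) =>
        Nat.pair (σ.getD y.1 0) (σ.getD (y.1 + 1) 0) < y.2) (Primrec.nat_lt.comp
          (Primrec₂.natPair.comp ((Primrec.list_getD 0).comp .fst (Primrec.fst.comp .snd))
            ((Primrec.list_getD 0).comp .fst (Primrec.succ.comp (Primrec.fst.comp .snd))))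
          (Primrec.snd.comp .snd))) (.const 0) (.const 1))).of_eq fun x => by congr
  obtain ⟨b, c3, h3⟩ := c2.find hI fun τ => by
    obtain ⟨B, hB⟩ := ((L (τ.length + 2)).finite_toSet.image fun σ =>
      Nat.pair (σ.getD τ.length 0) (σ.getD (τ.length + 1) 0)).bddAbove
    exact ⟨B + 1, if_pos fun σ hσ => Nat.lt_succ_of_le (hB ⟨σ, hσ, rfl⟩)⟩
  have c4 := ((inI_filter hI (A := fun τ => {c : ℕ | τ ++ [c.unpair.1, c.unpair.2] ∈ treeTwo G})
    (c1.pre hI primrec_two)).comp hI ((InI.prim hI .id).pair hI c3)).post hI .list_length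
  refine hI.join_mem _ (c1.pre hI (Primrec.ofNat (List ℕ))).mem _
    ((c4.of_eq (g := fun τ => {p : ℕ × ℕ | τ ++ [p.1, p.2] ∈ treeTwo G}.ncard)
      fun τ => ?_).pre hI (Primrec.ofNat (List ℕ))).mem
  rw [ncard_filter, ← ncard_pair]
  congr 1
  refine Set.ext fun c => and_iff_right_of_imp fun hc => ?_
  obtain ⟨g, hg, e, -⟩ := mem_two hc
  have h4 : ∀ σ ∈ L (τ.length + 2),
      Nat.pair (σ.getD τ.length 0) (σ.getD (τ.length + 1) 0) < b τ :=
    by_contra fun h => one_ne_zero ((if_neg h).symm.trans (h3 τ))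
  simpa using h4 _ ((hL' _ _).2 ⟨g, hg, e⟩)

/-- The binary code of a string. -/
def cd (τ : List ℕ) : List ℕ :=
  (List.range τ.length).map fun i => if τ[i.unpair.1]? = some i.unpair.2 then 1 else 0

theorem primrec_cd : Primrec cd :=
  Primrec.list_map (Primrec.list_range.comp .list_length) (Primrec.ite (Primrec.eq.comp
    (Primrec.list_getElem?.comp .fst (Primrec.fst.comp (Primrec.unpair.comp .snd)))
    (Primrec.option_some.comp (Primrec.snd.comp (Primrec.unpair.comp .snd))))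
      (.const 1) (.const 0)).to₂

theorem cd_initial (p : ℕ → ℕ) (n : ℕ) :
    cd (initial p n) = initial (fun i => if p i.unpair.1 = i.unpair.2 then 1 else 0) n := by
  rw [cd, length_initial]
  refine initial_eq_iff.2 fun k hk => ?_
  rw [initial_getElem?, if_pos ((Nat.unpair_left_le k).trans_lt hk)]
  simp

/-- A subtree which is decidable in the ideal and has nodes at all levels has a path in the
ideal. -/
theorem exists_path (hI : IsScottIdeal I) (hG : IsProfinite G) {L : ℕ → List (List ℕ)}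
    (hL : InI I L) (hL' : Levels G L) {β : Type} [Primcodable β] {D : ℕ → β} (hD : InI I D)
    {R : List ℕ → β → Prop} (hR : PrimrecRel R)
    (anti : ∀ g ∈ G, ∀ m n, m ≤ n → R (ini g n) (D n) → R (ini g m) (D m))
    (ne : ∀ n, ∃ g ∈ G, R (ini g n) (D n)) : ∃ g ∈ subI G I, ∀ n, R (ini g n) (D n) := by
  classical
  have hJ := hI.ideal
  let T : Set (List ℕ) := {σ | ∃ τ ∈ L σ.length, R τ (D σ.length) ∧ cd τ = σ}
  have hT : ∀ σ, σ ∈ T ↔ ∃ g ∈ G, R (ini g σ.length) (D σ.length) ∧ cd (ini g σ.length) = σ :=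
    fun σ => ⟨fun ⟨τ, h1, h2⟩ => ((hL' _ _).1 h1).elim fun g hg => ⟨g, hg.1, hg.2 ▸ h2⟩,
      fun ⟨g, h1, h2⟩ => ⟨_, (hL' _ _).2 ⟨g, h1, rfl⟩, h2⟩⟩
  have h1 : IsInfBinTree T := by
    refine ⟨fun σ hσ i hi => ?_, fun σ hσ ρ hρ => ?_, ?_⟩
    · obtain ⟨τ, -, -, e⟩ := hσ
      rw [← e] at hi
      obtain ⟨k, -, rfl⟩ := List.mem_map.1 hi
      split_ifs <;> omega
    · obtain ⟨g, hg, h2, e⟩ := (hT σ).1 hσ
      refine (hT ρ).2 ⟨g, hg, anti g hg _ _ hρ.length_le h2, ?_⟩
      rw [ini, cd_initial] at e ⊢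
      rw [← initial_take _ hρ.length_le, e]
      exact (List.prefix_iff_eq_take.1 hρ).symm
    · refine Set.infinite_of_forall_exists_gt (s := List.length '' T) (fun n => ?_) |>.of_image _
      obtain ⟨g, hg, h2⟩ := ne (n + 1)
      have e : (cd (ini g (n + 1))).length = n + 1 := by rw [ini, cd_initial, length_initial]
      exact ⟨n + 1, ⟨_, (hT _).2 ⟨g, hg, by rw [e]; exact ⟨h2, rfl⟩⟩, e⟩, n.lt_succ_self⟩
  have h2 : PrimrecRel fun (l : List (List ℕ)) (y : β × List ℕ) =>
      ∃ τ ∈ l, R τ y.1 ∧ cd τ = y.2 :=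
    PrimrecRel.exists_mem_list (R := fun (τ : List ℕ) (y : β × List ℕ) => R τ y.1 ∧ cd τ = y.2)
      ((hR.comp .fst (Primrec.fst.comp .snd)).and
        (Primrec.eq.comp (primrec_cd.comp .fst) (Primrec.snd.comp .snd)))
  have h3 : InI I fun σ : List ℕ => if σ ∈ T then 1 else 0 :=
    ((hL.pre hJ .list_length).pair hJ ((hD.pre hJ .list_length).pair hJ (InI.prim hJ .id))).post hJ
      (f := fun z : List (List ℕ) × β × List ℕ =>
        if ∃ τ ∈ z.1, R τ z.2.1 ∧ cd τ = z.2.2 then 1 else 0)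
      (Primrec.ite h2 (.const 1) (.const 0))
  have h3' : chi T ∈ I := ((h3.pre hJ (Primrec.ofNat (List ℕ))).of_eq (g := chi T) fun n => by
    by_cases h : Denumerable.ofNat (List ℕ) n ∈ T <;> simp [chi, codeFn, h]).mem
  obtain ⟨q, hq, h4⟩ := hI.path _ h3' T h1 (TuringReducible.refl _)
  have h5 : ∀ n, ∃ g ∈ G, R (ini g n) (D n) ∧
      ∀ i < n, (if pth g i.unpair.1 = i.unpair.2 then 1 else 0) = q i := fun n => by
    obtain ⟨g, hg, h6, e⟩ := (hT _).1 (h4 n)
    rw [length_initial] at h6 e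
    rw [ini, cd_initial] at e
    exact ⟨g, hg, h6, initial_eq_iff.1 e⟩
  choose u hu h6 h7 using h5
  obtain ⟨g, hg, h8⟩ := exists_limit hG u hu
  have h9 : ∀ i, (if pth g i.unpair.1 = i.unpair.2 then 1 else 0) = q i := fun i => by
    obtain ⟨n, hn, e⟩ := h8 (i + 1)
    rw [← initial_eq_iff.1 e _ (Nat.lt_succ_of_le (Nat.unpair_left_le i))]
    exact h7 n i hn
  have c1 : InI I fun x : ℕ × ℕ => 1 - q (Nat.pair (2 * x.1) x.2) :=
    ((inI_of_mem hq).pre hJ (Primrec₂.natPair.comp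
      (Primrec.nat_mul.comp (.const 2) .fst) .snd)).post hJ (Primrec.nat_sub.comp (.const 1) .id)
  have e1 : ∀ j a, 1 - q (Nat.pair (2 * j) a) = 0 ↔ g j = a := fun j a => by
    rw [← h9, Nat.unpair_pair, pth_even]
    split_ifs <;> simp_all
  obtain ⟨k, c2, e2⟩ := c1.find hJ fun j => ⟨g j, (e1 _ _).2 rfl⟩
  refine ⟨g, ⟨hg, (c2.of_eq fun j => ((e1 _ _).1 (e2 j)).symm).mem⟩, fun m => ?_⟩
  obtain ⟨n, hn, e⟩ := h8 m
  exact e ▸ anti _ (hu n) m n hn (h6 n)

end Pool.Agent.Lib.MP_eef9c4_lc
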