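import Pool.Agent.Lib.MP_eef9c4_lc.Q2B

set_option autoImplicit false

open Encodable Filter Topology

namespace Pool.Agent.Lib.MP_eef9c4_lc

/-! Effectively closed sets of tuples and absoluteness. -/

variable {I : Set (ℕ → ℕ)} {G : Subgroup (Equiv.Perm ℕ)} {L : ℕ → List (List ℕ)}
  {P Q : List (Equiv.Perm ℕ) → Prop}

/-- The nodes of level `n` of a tuple. -/
def dat (l : List (Equiv.Perm ℕ)) (n : ℕ) : List (List ℕ) := l.map fun g => ini g n

/-- Evaluation of a term or of its inverse on finite data. -/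
def Tm.ev : Tm → Bool → List (List ℕ) → ℕ → Option ℕ
  | .var i, b, σ, j => (σ[i]?).casesOn (some j) fun τ => τ[2 * j + b.toNat]?
  | .one, _, _, j => some j
  | .mul s t, false, σ, j => (t.ev false σ j).bind (s.ev false σ)
  | .mul s t, true, σ, j => (s.ev true σ j).bind (t.ev true σ)
  | .inv t, b, σ, j => t.ev (!b) σ j

theorem Tm.primrec_ev (t : Tm) : ∀ b, Primrec₂ (t.ev b) := by
  induction t with
  | var i =>
    exact fun b => Primrec.option_casesOn (Primrec.list_getElem?.comp .fst (.const i))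
      (Primrec.option_some.comp .snd) (Primrec.list_getElem?.comp .snd (Primrec.nat_add.comp
        (Primrec.nat_mul.comp (.const 2) (Primrec.snd.comp .fst)) (.const b.toNat))).to₂
  | one => exact fun _ => Primrec.option_some.comp .snd
  | mul s t hs ht =>
    rintro (_ | _)
    · exact Primrec.option_bind (ht false) ((hs false).comp (Primrec.fst.comp .fst) .snd).to₂
    · exact Primrec.option_bind (hs true) ((ht true).comp (Primrec.fst.comp .fst) .snd).to₂
  | inv t ht => exact fun b => ht (!b)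

theorem Tm.ev_spec (l : List (Equiv.Perm ℕ)) (t : Tm) : ∀ b j, ∃ N, ∀ n, t.ev b (dat l n) j =
    if N ≤ n then some (cond b (t.val l)⁻¹ (t.val l) j) else none := by
  have key : ∀ (f g : ℕ → ℕ → Option ℕ) (u v : ℕ → ℕ) (j : ℕ),
      (∀ j, ∃ N, ∀ n, f n j = if N ≤ n then some (u j) else none) →
      (∀ j, ∃ N, ∀ n, g n j = if N ≤ n then some (v j) else none) →
      ∃ N, ∀ n, (f n j).bind (g n) = if N ≤ n then some (v (u j)) else none := by
    intro f g u v j hf hg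
    obtain ⟨N, hN⟩ := hf j
    obtain ⟨M, hM⟩ := hg (u j)
    refine ⟨max N M, fun n => ?_⟩
    rw [hN]
    by_cases h : N ≤ n <;> simp [h, hM]
  induction t with
  | var i =>
    intro b j
    simp only [Tm.ev, Tm.val, dat, List.getElem?_map, List.getD_eq_getElem?_getD]
    rcases l[i]? with _ | g
    · exact ⟨0, fun n => by cases b <;> simp⟩
    · refine ⟨2 * j + b.toNat + 1, fun n => ?_⟩
      simp only [Option.map_some, ini, initial_getElem?, Nat.succ_le_iff, Option.getD_some]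
      cases b
      · simp [pth_even]
      · simp [pth_odd]
  | one => exact fun b j => ⟨0, fun n => by cases b <;> simp [Tm.ev, Tm.val]⟩
  | mul s t hs ht =>
    rintro (_ | _) j
    · exact key (fun n => t.ev false (dat l n)) (fun n => s.ev false (dat l n)) _ _ j
        (ht false) (hs false)
    · exact key (fun n => s.ev true (dat l n)) (fun n => t.ev true (dat l n)) _ _ j
        (hs true) (ht true)
  | inv t ht =>
    rintro (_ | _) j
    · exact ht true j
    · exact ht false j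

/-- The finite data of level `n`. -/
def pt (L : ℕ → List (List ℕ)) (l : List (Equiv.Perm ℕ)) (n : ℕ) :
    (List (List ℕ) × ℕ) × List (List ℕ) := ((L n, n), dat l n)

/-- Effectively closed sets of tuples. -/
def ECl (G : Subgroup (Equiv.Perm ℕ)) (L : ℕ → List (List ℕ))
    (P : List (Equiv.Perm ℕ) → Prop) : Prop :=
  ∃ R : (List (List ℕ) × ℕ) × List (List ℕ) → Prop, PrimrecPred R ∧
    (∀ l, (∀ g ∈ l, g ∈ G) → ∀ m n, m ≤ n → R (pt L l n) → R (pt L l m)) ∧
      ∀ l, (∀ g ∈ l, g ∈ G) → (P l ↔ ∀ n, R (pt L l n))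

theorem ECl.congr (h : ECl G L P) (e : ∀ l, Q l ↔ P l) : ECl G L Q :=
  h.imp fun _ h => ⟨h.1, h.2.1, fun l hl => (e l).trans (h.2.2 l hl)⟩

theorem ecl_eq (s t : Tm) : ECl G L fun l => s.val l = t.val l := by
  have hs := s.primrec_ev false
  have ht := t.primrec_ev false
  refine ⟨fun x => ∀ j ∈ List.range x.1.2, s.ev false x.2 j = none ∨ t.ev false x.2 j = none ∨
    s.ev false x.2 j = t.ev false x.2 j, ?_, fun l _ m n h H j hj => ?_, fun l _ => ?_⟩
  · exact (PrimrecRel.forall_mem_list (R := fun (j : ℕ) (σ : List (List ℕ)) =>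
      s.ev false σ j = none ∨ t.ev false σ j = none ∨ s.ev false σ j = t.ev false σ j)
      ((Primrec.eq.comp (hs.comp .snd .fst) (.const none)).or
        ((Primrec.eq.comp (ht.comp .snd .fst) (.const none)).or
          (Primrec.eq.comp (hs.comp .snd .fst) (ht.comp .snd .fst))))).comp
            (Primrec.list_range.comp (Primrec.snd.comp .fst)) .snd
  · obtain ⟨N, hN⟩ := s.ev_spec l false j
    obtain ⟨M, hM⟩ := t.ev_spec l false j
    have H' := H j (List.mem_range.2 ((List.mem_range.1 hj).trans_le h))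
    simp only [pt, hN, hM] at H' ⊢
    by_cases h1 : N ≤ m
    · by_cases h2 : M ≤ m
      · simpa [h1, h2, h1.trans h, h2.trans h] using H'
      · simp [h2]
    · simp [h1]
  · refine ⟨fun e n j _ => ?_, fun H => Equiv.ext fun j => ?_⟩
    · obtain ⟨N, hN⟩ := s.ev_spec l false j
      obtain ⟨M, hM⟩ := t.ev_spec l false j
      simp only [pt, hN, hM, e]
      by_cases h1 : N ≤ n <;> by_cases h2 : M ≤ n <;> simp [h1, h2]
    · obtain ⟨N, hN⟩ := s.ev_spec l false j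
      obtain ⟨M, hM⟩ := t.ev_spec l false j
      have H' := H (N + M + j + 1) j (by simp only [pt, List.mem_range]; omega)
      simp only [pt, hN, hM] at H'
      rw [if_pos (by omega), if_pos (by omega)] at H'
      simpa using H'

theorem dat_take (l : List (Equiv.Perm ℕ)) {m n : ℕ} (h : m ≤ n) :
    (dat l n).map (List.take m) = dat l m := by
  rw [dat, List.map_map]
  exact List.map_congr_left fun g _ => initial_take _ h

theorem ecl_dat (m : ℕ) (σ : List (List ℕ)) : ECl G L fun l => dat l m = σ := by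
  refine ⟨fun x => x.1.2 < m ∨ x.2.map (List.take m) = σ, ?_, fun l _ k n h H => ?_,
    fun l _ => ⟨fun e n => ?_, fun H => ?_⟩⟩
  · exact (Primrec.nat_lt.comp (Primrec.snd.comp .fst) (.const m)).or (Primrec.eq.comp
      (Primrec.list_map .snd (Primrec.list_take.comp (.const m) .snd).to₂) (.const σ))
  · refine (lt_or_ge k m).imp_right fun hk => ?_
    exact (dat_take l hk).trans ((dat_take l (hk.trans h)).symm.trans
      (H.resolve_left (hk.trans h).not_gt))
  · exact (lt_or_ge n m).imp_right fun hn => (dat_take l hn).trans e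
  · exact (dat_take l le_rfl).symm.trans ((H m).resolve_left (lt_irrefl m))

theorem ECl.and (h : ECl G L P) (h' : ECl G L Q) : ECl G L fun l => P l ∧ Q l := by
  obtain ⟨R, h1, h2, h3⟩ := h
  obtain ⟨S, k1, k2, k3⟩ := h'
  exact ⟨fun x => R x ∧ S x, h1.and k1,
    fun l hl m n h H => ⟨h2 l hl m n h H.1, k2 l hl m n h H.2⟩,
    fun l hl => (and_congr (h3 l hl) (k3 l hl)).trans forall_and.symm⟩

theorem ECl.or (h : ECl G L P) (h' : ECl G L Q) : ECl G L fun l => P l ∨ Q l := by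
  obtain ⟨R, h1, h2, h3⟩ := h
  obtain ⟨S, k1, k2, k3⟩ := h'
  refine ⟨fun x => R x ∨ S x, h1.or k1,
    fun l hl m n h H => H.imp (h2 l hl m n h) (k2 l hl m n h), fun l hl => ?_⟩
  refine (or_congr (h3 l hl) (k3 l hl)).trans
    ⟨fun H n => H.imp (fun H => H n) fun H => H n, fun H => ?_⟩
  refine or_iff_not_imp_left.2 fun H' n => ?_
  obtain ⟨m, hm⟩ := not_forall.1 H'
  exact k2 l hl n _ (le_max_left n m)
    ((H (max n m)).resolve_left fun e => hm (h2 l hl m _ (le_max_right n m) e))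

theorem primrec_cons {R : (List (List ℕ) × ℕ) × List (List ℕ) → Prop} (h : PrimrecPred R) :
    PrimrecRel fun (τ : List ℕ) (x : (List (List ℕ) × ℕ) × List (List ℕ)) => R (x.1, τ :: x.2) :=
  h.comp ((Primrec.fst.comp .snd).pair (Primrec.list_cons.comp .fst (Primrec.snd.comp .snd)))

theorem ECl.ex (hG : IsProfinite G) (hL : Levels G L) (h : ECl G L P) :
    ECl G L fun l => ∃ x ∈ G, P (x :: l) := by
  obtain ⟨R, h1, h2, h3⟩ := h
  have e : ∀ l n, (∃ τ ∈ L n, R ((L n, n), τ :: dat l n)) ↔ ∃ x ∈ G, R (pt L (x :: l) n) :=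
    fun l n => ⟨fun ⟨τ, k1, k2⟩ => ((hL _ _).1 k1).elim fun g hg =>
      ⟨g, hg.1, by rw [hg.2] at k2; exact k2⟩,
      fun ⟨g, k1, k2⟩ => ⟨_, (hL _ _).2 ⟨g, k1, rfl⟩, k2⟩⟩
  refine ⟨fun x => ∃ τ ∈ x.1.1, R (x.1, τ :: x.2),
    (primrec_cons h1).exists_mem_list.comp (Primrec.fst.comp .fst) .id,
    fun l hl m n h H => ?_, fun l hl => ⟨fun ⟨x, hx, H⟩ n => ?_, fun H => ?_⟩⟩
  · obtain ⟨x, hx, H'⟩ := (e l n).1 H
    exact (e l m).2 ⟨x, hx, h2 _ (List.forall_mem_cons.2 ⟨hx, hl⟩) m n h H'⟩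
  · exact (e l n).2 ⟨x, hx, (h3 _ (List.forall_mem_cons.2 ⟨hx, hl⟩)).1 H n⟩
  · choose u hu H' using fun n => (e l n).1 (H n)
    obtain ⟨g, hg, k⟩ := exists_limit hG u hu
    refine ⟨g, hg, (h3 _ (List.forall_mem_cons.2 ⟨hg, hl⟩)).2 fun m => ?_⟩
    obtain ⟨n, hn, e'⟩ := k m
    have k2 : R ((L m, m), ini (u n) m :: dat l m) :=
      h2 _ (List.forall_mem_cons.2 ⟨hu n, hl⟩) m n hn (H' n)
    rwa [e'] at k2

theorem ECl.all (hL : Levels G L) (h : ECl G L P) : ECl G L fun l => ∀ x ∈ G, P (x :: l) := by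
  obtain ⟨R, h1, h2, h3⟩ := h
  have e : ∀ l n, (∀ τ ∈ L n, R ((L n, n), τ :: dat l n)) ↔ ∀ x ∈ G, R (pt L (x :: l) n) :=
    fun l n => ⟨fun H g hg => H _ ((hL _ _).2 ⟨g, hg, rfl⟩),
      fun H τ k1 => ((hL _ _).1 k1).elim fun g hg => hg.2 ▸ H g hg.1⟩
  refine ⟨fun x => ∀ τ ∈ x.1.1, R (x.1, τ :: x.2),
    (primrec_cons h1).forall_mem_list.comp (Primrec.fst.comp .fst) .id,
    fun l hl m n h H => ?_, fun l hl => ⟨fun H n => ?_, fun H x hx => ?_⟩⟩
  · exact (e l m).2 fun x hx =>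
      h2 _ (List.forall_mem_cons.2 ⟨hx, hl⟩) m n h ((e l n).1 H x hx)
  · exact (e l n).2 fun x hx => (h3 _ (List.forall_mem_cons.2 ⟨hx, hl⟩)).1 (H x hx) n
  · exact (h3 _ (List.forall_mem_cons.2 ⟨hx, hl⟩)).2 fun n => (e l n).1 (H n) x hx

theorem inI_dat (hI : IsTuringIdeal I) {l : List (Equiv.Perm ℕ)} (hl : ∀ g ∈ l, g ∈ subI G I) :
    InI I (dat l) := by
  induction l with
  | nil => exact InI.prim hI (.const [])
  | cons g l ih =>
    have hg := (hl g List.mem_cons_self).2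
    exact ((inI_initial hI (hI.join_mem _ hg _ (inv_mem_ideal hI hg))).pair hI
      (ih fun x hx => hl x (List.mem_cons_of_mem _ hx))).post hI
        (f := fun z : List ℕ × List (List ℕ) => z.1 :: z.2) Primrec.list_cons

theorem ECl.basis (hI : IsScottIdeal I) (hG : IsProfinite G) (hL : InI I L) (hL' : Levels G L)
    (h : ECl G L P) {l : List (Equiv.Perm ℕ)} (hl : ∀ g ∈ l, g ∈ subI G I) {x : Equiv.Perm ℕ}
    (hx : x ∈ G) (H : P (x :: l)) : ∃ y ∈ subI G I, P (y :: l) := by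
  obtain ⟨R, h1, h2, h3⟩ := h
  have hl' : ∀ {y}, y ∈ G → ∀ g ∈ y :: l, g ∈ G := fun hy =>
    List.forall_mem_cons.2 ⟨hy, fun g hg => (hl g hg).1⟩
  obtain ⟨y, hy, H'⟩ := exists_path hI hG hL hL' (D := pt L l)
    ((hL.pair hI.ideal (InI.prim hI.ideal .id)).pair hI.ideal (inI_dat hI.ideal hl))
    (primrec_cons h1) (fun g hg => h2 _ (hl' hg)) fun n => ⟨x, hx, (h3 _ (hl' hx)).1 H n⟩
  exact ⟨y, hy, (h3 _ (hl' hy.1)).2 H'⟩

/-- Unions of effectively closed sets. -/
def ESg (G : Subgroup (Equiv.Perm ℕ)) (L : ℕ → List (List ℕ))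
    (P : List (Equiv.Perm ℕ) → Prop) : Prop :=
  ∀ l, (∀ g ∈ l, g ∈ G) → P l → ∃ C, ECl G L C ∧ C l ∧ ∀ l', (∀ g ∈ l', g ∈ G) → C l' → P l'

theorem ESg.congr (h : ESg G L P) (e : ∀ l, Q l ↔ P l) : ESg G L Q :=
  (funext fun l => propext (e l) : Q = P) ▸ h

theorem ECl.esg (h : ECl G L P) : ESg G L P := fun _ _ H => ⟨P, h, H, fun _ _ H => H⟩

theorem ECl.esg_not (h : ECl G L P) : ESg G L fun l => ¬ P l := by
  obtain ⟨R, -, -, h3⟩ := h
  intro l hl H
  obtain ⟨n, hn⟩ := not_forall.1 fun H' => H ((h3 l hl).2 H')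
  refine ⟨_, ecl_dat n (dat l n), rfl, fun l' hl' e H' => hn ?_⟩
  have k := (h3 l' hl').1 H' n
  rwa [pt, e] at k

theorem ESg.and (h : ESg G L P) (h' : ESg G L Q) : ESg G L fun l => P l ∧ Q l := by
  intro l hl H
  obtain ⟨C, h1, h2, h3⟩ := h l hl H.1
  obtain ⟨D, k1, k2, k3⟩ := h' l hl H.2
  exact ⟨_, h1.and k1, ⟨h2, k2⟩, fun l' hl' e => ⟨h3 l' hl' e.1, k3 l' hl' e.2⟩⟩

theorem ESg.or (h : ESg G L P) (h' : ESg G L Q) : ESg G L fun l => P l ∨ Q l := by
  rintro l hl (H | H)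
  · obtain ⟨C, h1, h2, h3⟩ := h l hl H
    exact ⟨C, h1, h2, fun l' hl' e => Or.inl (h3 l' hl' e)⟩
  · obtain ⟨C, h1, h2, h3⟩ := h' l hl H
    exact ⟨C, h1, h2, fun l' hl' e => Or.inr (h3 l' hl' e)⟩

theorem ESg.ex (hG : IsProfinite G) (hL : Levels G L) (h : ESg G L P) :
    ESg G L fun l => ∃ x ∈ G, P (x :: l) := by
  rintro l hl ⟨x, hx, H⟩
  obtain ⟨C, h1, h2, h3⟩ := h _ (List.forall_mem_cons.2 ⟨hx, hl⟩) H
  exact ⟨_, h1.ex hG hL, ⟨x, hx, h2⟩, fun l' hl' ⟨y, hy, e⟩ =>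
    ⟨y, hy, h3 _ (List.forall_mem_cons.2 ⟨hy, hl'⟩) e⟩⟩

theorem Pol.ecl (hG : IsProfinite G) (hL : Levels G L) {b : Bool} {φ : Fm} (h : Pol b φ) :
    ECl G L fun l => cond b (φ.Sat G l) ¬ φ.Sat G l := by
  induction h with
  | eq s t => exact ecl_eq s t
  | @neg b φ _ ih => exact ih.congr fun l => by cases b <;> simp [Fm.Sat]
  | @and b φ ψ _ _ ih ih' =>
    cases b
    · exact (ih.or ih').congr fun l => not_and_or
    · exact ih.and ih'
  | @or b φ ψ _ _ ih ih' =>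
    cases b
    · exact (ih.and ih').congr fun l => not_or
    · exact ih.or ih'
  | @ex b φ _ ih =>
    cases b
    · exact (ih.all hL).congr fun l => by simp [Fm.Sat]
    · exact ih.ex hG hL
  | @all b φ _ ih =>
    cases b
    · exact (ih.ex hG hL).congr fun l => by simp [Fm.Sat]
    · exact ih.all hL

theorem ecl_true : ECl G L fun _ => True :=
  (ecl_eq .one .one).congr fun _ => ⟨fun _ => rfl, fun _ => trivial⟩

theorem ecl_false : ECl G L fun _ => False :=
  ⟨fun _ => (0 : ℕ) = 1, Primrec.eq.comp (.const 0) (.const 1), fun _ _ _ _ _ H => H,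
    fun _ _ => ⟨False.elim, fun H => Nat.zero_ne_one (H 0)⟩⟩

/-- Differences of effectively closed sets. -/
def EDf (G : Subgroup (Equiv.Perm ℕ)) (L : ℕ → List (List ℕ))
    (P : List (Equiv.Perm ℕ) → Prop) : Prop :=
  ∃ C D, ECl G L C ∧ ECl G L D ∧ ∀ l, P l ↔ C l ∧ ¬ D l

theorem EDf.congr (h : EDf G L P) (e : ∀ l, Q l ↔ P l) : EDf G L Q :=
  (funext fun l => propext (e l) : Q = P) ▸ h

theorem ECl.edf (h : ECl G L P) : EDf G L P := ⟨P, _, h, ecl_false, fun _ => by simp⟩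

theorem ECl.edf_not (h : ECl G L P) : EDf G L fun l => ¬ P l :=
  ⟨_, P, ecl_true, h, fun _ => by simp⟩

theorem EDf.and (h : EDf G L P) (h' : EDf G L Q) : EDf G L fun l => P l ∧ Q l := by
  obtain ⟨C, D, h1, h2, h3⟩ := h
  obtain ⟨C', D', k1, k2, k3⟩ := h'
  refine ⟨_, _, h1.and k1, h2.or k2, fun l => ?_⟩
  simp only [h3, k3, not_or]
  exact and_and_and_comm

theorem EDf.all (hG : IsProfinite G) (hL : Levels G L) (h : EDf G L P) :
    EDf G L fun l => ∀ x ∈ G, P (x :: l) := by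
  obtain ⟨C, D, h1, h2, h3⟩ := h
  refine ⟨_, _, h1.all hL, h2.ex hG hL, fun l => ?_⟩
  simp only [h3]
  exact ⟨fun H => ⟨fun x hx => (H x hx).1, fun ⟨x, hx, e⟩ => (H x hx).2 e⟩,
    fun H x hx => ⟨H.1 x hx, fun e => H.2 ⟨x, hx, e⟩⟩⟩

theorem EDf.esg (h : EDf G L P) : ESg G L P := by
  obtain ⟨C, D, h1, h2, h3⟩ := h
  exact (h1.esg.and h2.esg_not).congr h3

theorem Cor.edf (hG : IsProfinite G) (hL : Levels G L) {b : Bool} {φ : Fm} (h : Cor b φ) :
    EDf G L fun l => cond b (φ.Sat G l) ¬ φ.Sat G l := by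
  induction h with
  | @base b c φ h =>
    cases b <;> cases c
    · exact (h.ecl hG hL).edf
    · exact (h.ecl hG hL).edf_not
    · exact (h.ecl hG hL).edf_not.congr fun l => not_not.symm
    · exact (h.ecl hG hL).edf
  | @neg b φ _ ih => exact ih.congr fun l => by cases b <;> simp [Fm.Sat]
  | and _ _ ih ih' => exact ih.and ih'
  | or _ _ ih ih' => exact (ih.and ih').congr fun l => not_or
  | ex _ ih => exact (ih.all hG hL).congr fun l => by simp [Fm.Sat]
  | all _ ih => exact ih.all hG hL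

theorem Cor.lev {b : Bool} {φ : Fm} (h : Cor b φ) : Lev (!b) φ := by
  induction h with
  | base h => exact .base (.base h)
  | neg _ ih => exact ih.neg
  | and _ _ ih ih' => exact ih.and ih'
  | or _ _ ih ih' => exact ih.or ih'
  | ex _ ih => exact ih.ex
  | all _ ih => exact ih.all

theorem Lev.esg (hG : IsProfinite G) (hL : Levels G L) {b : Bool} {φ : Fm} (h : Lev b φ) :
    ESg G L fun l => cond b (φ.Sat G l) ¬ φ.Sat G l := by
  induction h with
  | base h => exact (h.edf hG hL).esg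
  | @neg b φ _ ih => exact ih.congr fun l => by cases b <;> simp [Fm.Sat]
  | @and b φ ψ _ _ ih ih' =>
    cases b
    · exact (ih.or ih').congr fun l => not_and_or
    · exact ih.and ih'
  | @or b φ ψ _ _ ih ih' =>
    cases b
    · exact (ih.and ih').congr fun l => not_or
    · exact ih.or ih'
  | ex _ ih => exact ih.ex hG hL
  | all _ ih => exact (ih.ex hG hL).congr fun l => by simp [Fm.Sat]

/-- The formula has the same truth value in `G_I` and in `G`. -/
def Abs (G : Subgroup (Equiv.Perm ℕ)) (I : Set (ℕ → ℕ)) (φ : Fm) : Prop :=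
  ∀ l : List (Equiv.Perm ℕ), (∀ g ∈ l, g ∈ subI G I) → (φ.Sat (subI G I) l ↔ φ.Sat G l)

theorem ESg.basis (hI : IsScottIdeal I) (hG : IsProfinite G) (hL : InI I L) (hL' : Levels G L)
    (h : ESg G L P) {l : List (Equiv.Perm ℕ)} (hl : ∀ g ∈ l, g ∈ subI G I) {x : Equiv.Perm ℕ}
    (hx : x ∈ G) (H : P (x :: l)) : ∃ y ∈ subI G I, P (y :: l) := by
  obtain ⟨C, h1, h2, h3⟩ := h _ (List.forall_mem_cons.2 ⟨hx, fun g hg => (hl g hg).1⟩) H
  obtain ⟨y, hy, e⟩ := h1.basis hI hG hL hL' hl hx h2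
  exact ⟨y, hy, h3 _ (List.forall_mem_cons.2 ⟨hy.1, fun g hg => (hl g hg).1⟩) e⟩

theorem Abs.ex (hI : IsScottIdeal I) (hG : IsProfinite G) (hL : InI I L) (hL' : Levels G L)
    {φ : Fm} (h : Abs G I φ) (hφ : Lev true φ) : Abs G I (.ex φ) := by
  refine fun l hl => ⟨fun ⟨x, hx, H⟩ => ⟨x, hx.1, (h _ (List.forall_mem_cons.2 ⟨hx, hl⟩)).1 H⟩,
    fun ⟨x, hx, H⟩ => ?_⟩
  obtain ⟨y, hy, e⟩ := (hφ.esg hG hL').basis hI hG hL hL' hl hx H
  exact ⟨y, hy, (h _ (List.forall_mem_cons.2 ⟨hy, hl⟩)).2 e⟩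

theorem Abs.all (hI : IsScottIdeal I) (hG : IsProfinite G) (hL : InI I L) (hL' : Levels G L)
    {φ : Fm} (h : Abs G I φ) (hφ : Lev false φ) : Abs G I (.all φ) := by
  refine fun l hl => ⟨fun H x hx => by_contra fun H' => ?_,
    fun H x hx => (h _ (List.forall_mem_cons.2 ⟨hx, hl⟩)).2 (H x hx.1)⟩
  obtain ⟨y, hy, e⟩ := (hφ.esg hG hL').basis hI hG hL hL' hl hx H'
  exact e ((h _ (List.forall_mem_cons.2 ⟨hy, hl⟩)).1 (H y hy))

theorem Gam.abs (hI : IsScottIdeal I) (hG : IsProfinite G)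
    (hT : treeCode G ∈ I ∨ twoCode G ∈ I) {φ : Fm} (h : Gam φ) : Abs G I φ := by
  obtain ⟨L, hL, hL'⟩ := hT.elim (exists_levels hI.ideal hG) (exists_levels_two hI.ideal hG)
  have h1 : ∀ b φ, Pol b φ → Abs G I φ := fun b φ h => by
    induction h with
    | eq s t => exact fun _ _ => Iff.rfl
    | neg _ ih => exact fun l hl => not_congr (ih l hl)
    | and _ _ ih ih' => exact fun l hl => and_congr (ih l hl) (ih' l hl)
    | or _ _ ih ih' => exact fun l hl => or_congr (ih l hl) (ih' l hl)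
    | ex h ih => exact ih.ex hI hG hL hL' (.base (.base h))
    | all h ih => exact ih.all hI hG hL hL' (.base (.base h))
  have h3 : ∀ b φ, Cor b φ → Abs G I φ := fun b φ h => by
    induction h with
    | base h => exact h1 _ _ h
    | neg _ ih => exact fun l hl => not_congr (ih l hl)
    | and _ _ ih ih' => exact fun l hl => and_congr (ih l hl) (ih' l hl)
    | or _ _ ih ih' => exact fun l hl => or_congr (ih l hl) (ih' l hl)
    | ex h ih => exact ih.ex hI hG hL hL' h.lev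
    | all h ih => exact ih.all hI hG hL hL' h.lev
  have h2 : ∀ b φ, Lev b φ → Abs G I φ := fun b φ h => by
    induction h with
    | base h => exact h3 _ _ h
    | neg _ ih => exact fun l hl => not_congr (ih l hl)
    | and _ _ ih ih' => exact fun l hl => and_congr (ih l hl) (ih' l hl)
    | or _ _ ih ih' => exact fun l hl => or_congr (ih l hl) (ih' l hl)
    | ex h ih => exact ih.ex hI hG hL hL' h
    | all h ih => exact ih.all hI hG hL hL' h
  induction h with
  | base h => exact h2 _ _ h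
  | neg _ ih => exact fun l hl => not_congr (ih l hl)
  | and _ _ ih ih' => exact fun l hl => and_congr (ih l hl) (ih' l hl)
  | or _ _ ih ih' => exact fun l hl => or_congr (ih l hl) (ih' l hl)

theorem Pol.same {b : Bool} {φ : Fm} (h : Pol b φ) : ∀ {ψ : Fm}, Same φ ψ → Pol b ψ := by
  induction h with
  | eq s t => rintro _ ⟨⟩; exact .eq _ _
  | neg _ ih => rintro _ ⟨⟩; exact (ih ‹_›).neg
  | and _ _ ih ih' => rintro _ ⟨⟩; exact (ih ‹_›).and (ih' ‹_›)
  | or _ _ ih ih' => rintro _ ⟨⟩; exact (ih ‹_›).or (ih' ‹_›)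
  | ex _ ih => rintro _ ⟨⟩; exact (ih ‹_›).ex
  | all _ ih => rintro _ ⟨⟩; exact (ih ‹_›).all

theorem Cor.same {b : Bool} {φ : Fm} (h : Cor b φ) : ∀ {ψ : Fm}, Same φ ψ → Cor b ψ := by
  induction h with
  | base h => exact fun e => .base (h.same e)
  | neg _ ih => rintro _ ⟨⟩; exact (ih ‹_›).neg
  | and _ _ ih ih' => rintro _ ⟨⟩; exact (ih ‹_›).and (ih' ‹_›)
  | or _ _ ih ih' => rintro _ ⟨⟩; exact (ih ‹_›).or (ih' ‹_›)
  | ex _ ih => rintro _ ⟨⟩; exact (ih ‹_›).ex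
  | all _ ih => rintro _ ⟨⟩; exact (ih ‹_›).all

theorem Lev.same {b : Bool} {φ : Fm} (h : Lev b φ) : ∀ {ψ : Fm}, Same φ ψ → Lev b ψ := by
  induction h with
  | base h => exact fun e => .base (h.same e)
  | neg _ ih => rintro _ ⟨⟩; exact (ih ‹_›).neg
  | and _ _ ih ih' => rintro _ ⟨⟩; exact (ih ‹_›).and (ih' ‹_›)
  | or _ _ ih ih' => rintro _ ⟨⟩; exact (ih ‹_›).or (ih' ‹_›)
  | ex _ ih => rintro _ ⟨⟩; exact (ih ‹_›).ex
  | all _ ih => rintro _ ⟨⟩; exact (ih ‹_›).all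

theorem Gam.same {φ : Fm} (h : Gam φ) : ∀ {ψ : Fm}, Same φ ψ → Gam ψ := by
  induction h with
  | base h => exact fun e => .base (h.same e)
  | neg _ ih => rintro _ ⟨⟩; exact (ih ‹_›).neg
  | and _ _ ih ih' => rintro _ ⟨⟩; exact (ih ‹_›).and (ih' ‹_›)
  | or _ _ ih ih' => rintro _ ⟨⟩; exact (ih ‹_›).or (ih' ‹_›)

end Pool.Agent.Lib.MP_eef9c4_lc
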