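import Mathlib
import Pool.Agent.Lib.MP_eef9c4_lc.Defs

set_option autoImplicit false

namespace Pool.Agent.Lib.MP_eef9c4_lc

/-- The strings `g 0, g⁻¹ 0, ..., g n, g⁻¹ n` only, without their segments of odd length. -/
def treeTwo (G : Subgroup (Equiv.Perm ℕ)) : Set (List ℕ) :=
  {τ | ∃ g ∈ G, ∃ n : ℕ, τ = initial (join g (g⁻¹ : Equiv.Perm ℕ)) (2 * (n + 1))}

/-- The join of `treeTwo G` and of its branching function. -/
noncomputable def twoCode (G : Subgroup (Equiv.Perm ℕ)) : ℕ → ℕ :=
  join (chi (treeTwo G)) (codeFn fun τ => {p : ℕ × ℕ | τ ++ [p.1, p.2] ∈ treeTwo G}.ncard)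

/-- Terms of the language of groups. -/
inductive Tm : Type
  | var : ℕ → Tm
  | one : Tm
  | mul : Tm → Tm → Tm
  | inv : Tm → Tm

/-- First-order formulas of the language of groups; a quantifier binds the variable `0` and
shifts the other variables by one. -/
inductive Fm : Type
  | eq : Tm → Tm → Fm
  | neg : Fm → Fm
  | and : Fm → Fm → Fm
  | or : Fm → Fm → Fm
  | ex : Fm → Fm
  | all : Fm → Fm

/-- The value of a term at a tuple; a variable beyond the tuple is read as the identity. The four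
cases are `var`, `one`, `mul`, `inv`. -/
noncomputable def Tm.val (l : List (Equiv.Perm ℕ)) (t : Tm) : Equiv.Perm ℕ :=
  Tm.rec (fun i => l.getD i 1) 1 (fun _ _ a b => a * b) (fun _ a => a⁻¹) t

/-- Truth of a formula at a tuple, the quantifiers ranging over `H`. The six cases are `eq`,
`neg`, `and`, `or`, `ex`, `all`. -/
def Fm.Sat (H : Set (Equiv.Perm ℕ)) (φ : Fm) : List (Equiv.Perm ℕ) → Prop :=
  Fm.rec (fun s t l => s.val l = t.val l) (fun _ p l => ¬ p l) (fun _ _ p q l => p l ∧ q l)
    (fun _ _ p q l => p l ∨ q l) (fun _ p l => ∃ x ∈ H, p (x :: l))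
    (fun _ p l => ∀ x ∈ H, p (x :: l)) φ

/-- The second formula is obtained from the first one by replacing each equation by some
equation. -/
inductive Same : Fm → Fm → Prop
  | eq (s t s' t' : Tm) : Same (.eq s t) (.eq s' t')
  | neg {φ φ' : Fm} : Same φ φ' → Same (.neg φ) (.neg φ')
  | and {φ φ' ψ ψ' : Fm} : Same φ φ' → Same ψ ψ' → Same (.and φ ψ) (.and φ' ψ')
  | or {φ φ' ψ ψ' : Fm} : Same φ φ' → Same ψ ψ' → Same (.or φ ψ) (.or φ' ψ')
  | ex {φ φ' : Fm} : Same φ φ' → Same (.ex φ) (.ex φ')
  | all {φ φ' : Fm} : Same φ φ' → Same (.all φ) (.all φ')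

/-- `Pol true φ`: every equation of `φ` lies under an even number of negations (positive
formulas, with arbitrary quantifiers). `Pol false φ`: every equation lies under an odd number. -/
inductive Pol : Bool → Fm → Prop
  | eq (s t : Tm) : Pol true (.eq s t)
  | neg {b : Bool} {φ : Fm} : Pol b φ → Pol (!b) (.neg φ)
  | and {b : Bool} {φ ψ : Fm} : Pol b φ → Pol b ψ → Pol b (.and φ ψ)
  | or {b : Bool} {φ ψ : Fm} : Pol b φ → Pol b ψ → Pol b (.or φ ψ)
  | ex {b : Bool} {φ : Fm} : Pol b φ → Pol b (.ex φ)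
  | all {b : Bool} {φ : Fm} : Pol b φ → Pol b (.all φ)

/-- `Cor true`: the closure of the positive and the negative formulas under conjunction and
universal quantifiers. `Cor false`: their closure under disjunction and existential quantifiers.
Negation exchanges the two classes. -/
inductive Cor : Bool → Fm → Prop
  | base {b c : Bool} {φ : Fm} : Pol c φ → Cor b φ
  | neg {b : Bool} {φ : Fm} : Cor b φ → Cor (!b) (.neg φ)
  | and {φ ψ : Fm} : Cor true φ → Cor true ψ → Cor true (.and φ ψ)
  | or {φ ψ : Fm} : Cor false φ → Cor false ψ → Cor false (.or φ ψ)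
  | ex {φ : Fm} : Cor false φ → Cor false (.ex φ)
  | all {φ : Fm} : Cor true φ → Cor true (.all φ)

/-- `Lev true`: the closure of `Cor true` under conjunction, disjunction and existential
quantifiers. `Lev false`: the closure of `Cor false` under conjunction, disjunction and universal
quantifiers. Negation exchanges the two classes. -/
inductive Lev : Bool → Fm → Prop
  | base {b : Bool} {φ : Fm} : Cor b φ → Lev b φ
  | neg {b : Bool} {φ : Fm} : Lev b φ → Lev (!b) (.neg φ)
  | and {b : Bool} {φ ψ : Fm} : Lev b φ → Lev b ψ → Lev b (.and φ ψ)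
  | or {b : Bool} {φ ψ : Fm} : Lev b φ → Lev b ψ → Lev b (.or φ ψ)
  | ex {φ : Fm} : Lev true φ → Lev true (.ex φ)
  | all {φ : Fm} : Lev false φ → Lev false (.all φ)

/-- Boolean combinations of formulas in `Lev true` or `Lev false`. -/
inductive Gam : Fm → Prop
  | base {b : Bool} {φ : Fm} : Lev b φ → Gam φ
  | neg {φ : Fm} : Gam φ → Gam (.neg φ)
  | and {φ ψ : Fm} : Gam φ → Gam ψ → Gam (.and φ ψ)
  | or {φ ψ : Fm} : Gam φ → Gam ψ → Gam (.or φ ψ)

end Pool.Agent.Lib.MP_eef9c4_lc
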