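import Pool.Agent.Lib.MP_eef9c4_lc.Group
import Pool.Agent.Lib.MP_eef9c4_lc.Q2Defs

set_option autoImplicit false

namespace Pool.Agent.Lib.MP_eef9c4_lc

/-! A counterexample with a single clause, and its realisation in every shape outside `Gam`. -/

theorem hs_tw_iff (α β γ α' β' γ' δ : Ix → ZMod 2) :
    hs α β γ * hs α' β' γ' = hs 0 0 δ * hs α' β' γ' * hs α β γ ↔
      ∀ i, α i * β' i = δ i + α' i * β i := by
  unfold hs
  rw [← map_mul, ← map_mul, ← map_mul, num.permCongrHom.injective.eq_iff, heis_mul, heis_mul,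
    heis_mul]
  constructor
  · intro h i
    have := congrArg (fun g : Equiv.Perm Om => (g (i, 0, 0)).2.2) h
    simp only [heis_apply, Pi.add_apply, Pi.mul_apply, Pi.zero_apply] at this
    linear_combination this
  · intro h
    have : α * β' = δ + α' * β := funext h
    rw [this]
    congr 1 <;> ring

/-- The parameter in the hypothesis of the clause. -/
noncomputable def pa (a : ℕ → ℕ) (m : ℕ) : Equiv.Perm ℕ := hs (lam a 1 (Pi.single m 1)) (mu 0 0) 0

/-- The central parameter. -/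
noncomputable def pz (a : ℕ → ℕ) : Equiv.Perm ℕ := hs 0 0 (lam a 0 1 * mu 1 0)

theorem continuous_pa (m : ℕ) : Continuous fun a => (pa a m : ℕ → ℕ) := by
  apply continuous_of_local
  intro n
  obtain ⟨N, hN⟩ := exists_bound (n + 1)
  exact ⟨N, fun a a' h => hs_congr (hN a a' h n (Nat.lt_succ_self n) _ _) rfl rfl⟩

theorem continuous_pz : Continuous fun a => (pz a : ℕ → ℕ) := by
  apply continuous_of_local
  intro n
  obtain ⟨N, hN⟩ := exists_bound (n + 1)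
  refine ⟨N, fun a a' h => hs_congr rfl rfl ?_⟩
  rw [Pi.mul_apply, Pi.mul_apply, hN a a' h n (Nat.lt_succ_self n)]

theorem pa_ne (a : ℕ → ℕ) (m : ℕ) : pa a m ≠ 1 := by
  intro h
  have e : pa a m * ph 1 = ph 1 * pa a m := by rw [h, one_mul, mul_one]
  rw [pa, ph, hs_comm_iff] at e
  simpa [lam, mu] using e (m, 0, 0)

/-- The clause. -/
def Cl (a c d x y : Equiv.Perm ℕ) : Prop := a * y = y * a → x * (y * c) = d * (y * c) * x

theorem cl_holds (t : ℕ → ℕ) {m : ℕ} (hm : t m ≠ 0) :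
    ∃ x ∈ grp (marks t), ∀ y ∈ grp (marks t), Cl (pa (marks t) m) pc (pz (marks t)) x y := by
  refine ⟨_, ⟨0, fun n => if t n = 0 then 0 else 1, 0, 0, 0, rfl⟩, ?_⟩
  rintro _ ⟨x, s, z, y, γ, rfl⟩ h
  rw [pa, hs_comm_iff, mu_zero] at h
  have hy : ∀ n, t n ≠ 0 → y n = 0 := fun n h0 => by
    obtain ⟨k, hk⟩ := Nat.exists_eq_succ_of_ne_zero h0
    simpa [lam, mu, marks_pair, hk] using h (n, k, 1)
  have hz : z = 0 := by
    obtain ⟨k, hk⟩ := Nat.exists_eq_succ_of_ne_zero hm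
    simpa [lam, mu, marks_pair, hk] using h (m, k, 2)
  subst hz
  rw [pc, pz, hs_mul, mu_add, hs_tw_iff, mu_zero]
  rintro ⟨n, k, j⟩
  fin_cases j
  · by_cases h0 : t n = 0
    · simp [lam, mu, h0]
    · simp [lam, mu, hy n h0]
  · simp [lam, mu]
  · by_cases h : t n = k + 1 <;> simp [lam, mu, marks_pair, h]

theorem cl_fails (t : ℕ → ℕ) {m : ℕ} (hm : t m ≠ 0) {I : Set (ℕ → ℕ)} (hI : IsTuringIdeal I)
    (hJ : jump t ∉ I) (hf : ∀ k, fns k (marks t) ∈ I)
    (hn : (fun m => if (num.symm m).2.2 = 0 then 0 else 1) ∈ I) :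
    ¬ ∃ x ∈ subI (grp (marks t)) I, ∀ y ∈ subI (grp (marks t)) I,
      Cl (pa (marks t) m) pc (pz (marks t)) x y := by
  rintro ⟨_, ⟨⟨x, s, z, y, γ, rfl⟩, hxI⟩, h⟩
  have hph : ∀ w, ph w ∈ grp (marks t) := fun w => ⟨0, 0, 0, w, 0, by rw [lam_zero]; rfl⟩
  have hs_val : ∀ n, jump t n = if s n = 0 then 0 else 1 := by
    intro n
    obtain ⟨n0, hn0⟩ : ∃ n0, t n0 = 0 := by
      by_contra hc
      apply hJ
      obtain ⟨g, hg⟩ := hI.nonempty
      have : jump t = fun _ => 1 := funext fun n => if_neg fun e => hc ⟨n, e⟩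
      rw [this]
      exact hI.mem_of_le _ g (Partrec.turingReducible (Primrec.const 1).to_comp.partrec) hg
    have key : ∀ n, t n = 0 → ∀ i, lam (marks t) x s i * mu 1 (Pi.single n 1) i =
        lam (marks t) 0 1 i * mu 1 0 i := fun n h0 => by
      have hnm : n ≠ m := fun e => hm (e ▸ h0)
      have h5 : pa (marks t) m * ph (Pi.single n 1) = ph (Pi.single n 1) * pa (marks t) m := by
        rw [pa, ph, hs_comm_iff]
        rintro ⟨n', k, j⟩
        by_cases hn : n' = n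
        · subst hn
          fin_cases j <;> simp [lam, mu, marks_pair, h0, hnm]
        · fin_cases j <;> simp [lam, mu, hn]
      have h3 := h (ph (Pi.single n 1)) ⟨hph _, hf (3, n)⟩ h5
      rw [pc, pz, ph, hs_mul, mu_add, hs_tw_iff] at h3
      simpa using h3
    by_cases h0 : t n = 0
    · have : s n = 0 := by simpa [lam, mu] using key n h0 (n, 0, 0)
      simp [jump, h0, this]
    · obtain ⟨k, hk⟩ := Nat.exists_eq_succ_of_ne_zero h0
      have : s n = 1 := by simpa [lam, mu, marks_pair, hk] using key n0 hn0 (n, k, 2)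
      simp [jump, h0, this]
  apply hJ
  set g := hs (lam (marks t) x s) (mu z y) γ with hg
  have hall : (ph 1 : ℕ → ℕ) ∈ I := hf (4, 0)
  have hz : ((g * ph 1 * g * ph 1 * g * g : Equiv.Perm ℕ) : ℕ → ℕ) ∈ I := by
    simp only [Equiv.Perm.coe_mul]
    exact hI.comp_mem (hI.comp_mem (hI.comp_mem (hI.comp_mem (hI.comp_mem hxI hall) hxI) hall)
      hxI) hxI
  have e := hI.comp_mem (hI.comp_mem hn hz) (hf (5, 0))
  refine (funext fun n => ?_ : jump t = _) ▸ e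
  rw [hs_val n]
  simp only [fns, Function.comp, hg, ph, hs_mul, hs_apply, Equiv.symm_apply_apply, heis_apply]
  simp only [lam, mu, Pi.add_apply, Pi.mul_apply, Pi.zero_apply, Pi.one_apply,
    Matrix.cons_val_zero]
  have key : ∀ u v w : ZMod 2, 0 + (u + 0 + u + 0 + u + u) * 0 +
      (w + 0 + u * 1 + w + (u + 0) * v + 0 + (u + 0 + u) * 1 + w + (u + 0 + u + 0) * v + w +
        (u + 0 + u + 0 + u) * v) = u := by decide
  have := key (s n) (y n) (γ (n, 0, 0))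
  by_cases h0 : s n = 0
  · rw [if_pos h0, if_pos (this.trans h0)]
  · rw [if_neg h0, if_neg (fun h' => h0 (this.symm.trans h'))]

theorem cl_main : ∃ (I : Set (ℕ → ℕ)) (G : Subgroup (Equiv.Perm ℕ)) (a c d : Equiv.Perm ℕ),
    IsScottIdeal I ∧ IsProfinite G ∧ treeCode G ∈ I ∧ a ∈ subI G I ∧ c ∈ subI G I ∧
    d ∈ subI G I ∧ a ≠ 1 ∧ (∃ x ∈ G, ∀ y ∈ G, Cl a c d x y) ∧
    ¬ ∃ x ∈ subI G I, ∀ y ∈ subI G I, Cl a c d x y := by
  obtain ⟨t, I, h1, h2, h3⟩ := exists_scott_ideal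
    (Sum.elim (Sum.elim fns fun m a => (pa a m : ℕ → ℕ)) fun b : Bool => cond b
      (fun a => (pz a : ℕ → ℕ)) fun _ m => if (num.symm m).2.2 = 0 then 0 else 1)
    (fun k => by
      rcases k with (k | m) | (_ | _)
      · exact continuous_fns k
      · exact continuous_pa m
      · exact continuous_const
      · exact continuous_pz)
  obtain ⟨m, hm⟩ : ∃ m, t m ≠ 0 := by
    by_contra hc
    apply h2
    obtain ⟨g, hg⟩ := h1.ideal.nonempty
    have : jump t = fun _ => 0 := funext fun n => if_pos (by_contra fun e => hc ⟨n, e⟩)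
    rw [this]
    exact h1.ideal.mem_of_le _ g (Partrec.turingReducible (Primrec.const 0).to_comp.partrec) hg
  exact ⟨I, grp (marks t), pa (marks t) m, pc, pz (marks t), h1, isProfinite_grp _,
    h3 (.inl (.inl (0, 0))), ⟨⟨1, _, 0, 0, 0, rfl⟩, h3 (.inl (.inr m))⟩,
    ⟨⟨0, 0, 1, 0, 0, by rw [lam_zero]; rfl⟩, h3 (.inl (.inl (2, 0)))⟩,
    ⟨⟨0, 0, 0, 0, _, by rw [lam_zero, mu_zero]; rfl⟩, h3 (.inr true)⟩, pa_ne _ _,
    cl_holds t hm, cl_fails t hm h1.ideal h2 (fun k => h3 (.inl (.inl k))) (h3 (.inr false))⟩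

/-- The shift of the variables. -/
def Tm.up : Tm → Tm
  | .var i => .var (i + 1)
  | .one => .one
  | .mul s t => .mul s.up t.up
  | .inv t => .inv t.up

theorem Tm.val_up (x : Equiv.Perm ℕ) (l : List (Equiv.Perm ℕ)) (t : Tm) :
    t.up.val (x :: l) = t.val l := by
  induction t with
  | var i => rfl
  | one => rfl
  | mul s t hs ht => exact congrArg₂ (· * ·) hs ht
  | inv t ht => exact congrArg (·⁻¹) ht

/-- Properties of a domain of quantification and a valuation. -/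
abbrev Tg := Set (Equiv.Perm ℕ) → (ℕ → Equiv.Perm ℕ) → Prop

/-- The property is expressed, at arbitrary terms, by a formula of the shape of `φ`. -/
def Re (Φ : Tg) (φ : Fm) : Prop :=
  ∀ ts : ℕ → Tm, ∃ ψ, Same φ ψ ∧ ∀ (H : Set (Equiv.Perm ℕ)) (l : List (Equiv.Perm ℕ)),
    H.Nonempty → (ts 0).val l ≠ 1 → (ψ.Sat H l ↔ Φ H fun i => (ts i).val l)

variable {Φ Ψ : Tg} {φ ψ : Fm}

theorem Re.congr (h : Re Φ φ) (e : ∀ H v, H.Nonempty → (Φ H v ↔ Ψ H v)) : Re Ψ φ := fun ts =>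
  (h ts).imp fun _ h => ⟨h.1, fun H l h1 h2 => (h.2 H l h1 h2).trans (e H _ h1)⟩

theorem Re.neg (h : Re Φ φ) : Re (fun H v => ¬ Φ H v) (.neg φ) := fun ts =>
  (h ts).elim fun _ h => ⟨_, h.1.neg, fun H l h1 h2 => not_congr (h.2 H l h1 h2)⟩

theorem Re.and (h : Re Φ φ) (h' : Re Ψ ψ) : Re (fun H v => Φ H v ∧ Ψ H v) (.and φ ψ) := fun ts =>
  (h ts).elim fun _ h => (h' ts).elim fun _ k =>
    ⟨_, h.1.and k.1, fun H l h1 h2 => and_congr (h.2 H l h1 h2) (k.2 H l h1 h2)⟩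

theorem Re.or (h : Re Φ φ) (h' : Re Ψ ψ) : Re (fun H v => Φ H v ∨ Ψ H v) (.or φ ψ) := fun ts =>
  (h ts).elim fun _ h => (h' ts).elim fun _ k =>
    ⟨_, h.1.or k.1, fun H l h1 h2 => or_congr (h.2 H l h1 h2) (k.2 H l h1 h2)⟩

theorem Re.ex0 (h : Re Φ φ) : Re Φ (.ex φ) := fun ts =>
  (h fun i => (ts i).up).elim fun _ h => ⟨_, h.1.ex, fun H l h1 h2 => by
    have e := fun x => h.2 H (x :: l) h1 (by rwa [Tm.val_up])
    simp only [Tm.val_up] at e
    exact ⟨fun ⟨x, _, k⟩ => (e x).1 k, fun k => h1.elim fun x hx => ⟨x, hx, (e x).2 k⟩⟩⟩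

theorem Re.all0 (h : Re Φ φ) : Re Φ (.all φ) := fun ts =>
  (h fun i => (ts i).up).elim fun _ h => ⟨_, h.1.all, fun H l h1 h2 => by
    have e := fun x => h.2 H (x :: l) h1 (by rwa [Tm.val_up])
    simp only [Tm.val_up] at e
    exact ⟨fun k => h1.elim fun x hx => (e x).1 (k x hx), fun k x _ => (e x).2 k⟩⟩

theorem Re.bind (h : Re Φ φ) (j : ℕ) (ts : ℕ → Tm) : ∃ ψ, Same φ ψ ∧
    ∀ (H : Set (Equiv.Perm ℕ)) (l : List (Equiv.Perm ℕ)), H.Nonempty → (ts 0).val l ≠ 1 → ∀ x,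
      (ψ.Sat H (x :: l) ↔ Φ H (Function.update (fun i => (ts i).val l) (j + 1) x)) := by
  obtain ⟨ψ, h1, h2⟩ := h (Function.update (fun i => (ts i).up) (j + 1) (.var 0))
  refine ⟨ψ, h1, fun H l k1 k2 x => (h2 H (x :: l) k1 ?_).trans (iff_of_eq (congrArg _ ?_))⟩
  · rwa [Function.update_of_ne (Nat.succ_ne_zero j).symm, Tm.val_up]
  · funext i
    by_cases e : i = j + 1
    · rw [e, Function.update_self, Function.update_self]
      rfl
    · rw [Function.update_of_ne e, Function.update_of_ne e, Tm.val_up]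

theorem Re.ex1 (h : Re Φ φ) (j : ℕ) :
    Re (fun H v => ∃ x ∈ H, Φ H (Function.update v (j + 1) x)) (.ex φ) := fun ts =>
  (h.bind j ts).elim fun _ h => ⟨_, h.1.ex, fun H l h1 h2 =>
    exists_congr fun x => and_congr_right fun _ => h.2 H l h1 h2 x⟩

theorem Re.all1 (h : Re Φ φ) (j : ℕ) :
    Re (fun H v => ∀ x ∈ H, Φ H (Function.update v (j + 1) x)) (.all φ) := fun ts =>
  (h.bind j ts).elim fun _ h => ⟨_, h.1.all, fun H l h1 h2 =>
    forall_congr' fun x => imp_congr_right fun _ => h.2 H l h1 h2 x⟩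

theorem re_const (φ : Fm) : ∀ b : Bool, Re (fun _ _ => b = true) φ := by
  induction φ with
  | eq s t =>
    rintro (_ | _) ts
    · exact ⟨.eq (ts 0) .one, .eq _ _ _ _, fun H l _ h => ⟨fun e => absurd e h, fun e => nomatch e⟩⟩
    · exact ⟨.eq .one .one, .eq _ _ _ _, fun H l _ h => ⟨fun _ => rfl, fun _ => rfl⟩⟩
  | neg φ ih => exact fun b => (ih !b).neg.congr fun _ _ _ => by cases b <;> simp
  | and φ ψ ih ih' => exact fun b => ((ih b).and (ih' b)).congr fun _ _ _ => and_self_iff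
  | or φ ψ ih ih' => exact fun b => ((ih b).or (ih' b)).congr fun _ _ _ => or_self_iff
  | ex φ ih => exact fun b => (ih b).ex0
  | all φ ih => exact fun b => (ih b).all0

theorem Re.andl (h : Re Φ φ) : Re Φ (.and φ ψ) :=
  (h.and (re_const ψ true)).congr fun _ _ _ => by simp

theorem Re.andr (h : Re Φ ψ) : Re Φ (.and φ ψ) :=
  ((re_const φ true).and h).congr fun _ _ _ => by simp

theorem Re.orl (h : Re Φ φ) : Re Φ (.or φ ψ) :=
  (h.or (re_const ψ false)).congr fun _ _ _ => by simp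

theorem Re.orr (h : Re Φ ψ) : Re Φ (.or φ ψ) :=
  ((re_const φ false).or h).congr fun _ _ _ => by simp

/-- A property or its negation. -/
def sg (b : Bool) (Φ : Tg) : Tg := fun H v => cond b (Φ H v) ¬ Φ H v

theorem Re.sneg {b : Bool} (h : Re (sg (!b) Φ) φ) : Re (sg b Φ) (.neg φ) :=
  h.neg.congr fun _ _ _ => by cases b <;> simp [sg]

theorem Re.sneg' {b : Bool} (h : Re (sg b Φ) φ) : Re (sg (!b) Φ) (.neg φ) :=
  h.neg.congr fun _ _ _ => by cases b <;> simp [sg]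

/-- An equation. -/
def T1 : Tg := fun _ v => v 1 = v 2

/-- The clause. -/
def T2 : Tg := fun _ v => Cl (v 0) (v 1) (v 2) (v 3) (v 4)

/-- The clause under a universal quantifier. -/
def T3 : Tg := fun H v => ∀ y ∈ H, Cl (v 0) (v 1) (v 2) (v 3) y

/-- The clause under an existential and a universal quantifier. -/
def T4 : Tg := fun H v => ∃ x ∈ H, ∀ y ∈ H, Cl (v 0) (v 1) (v 2) x y

theorem Re.hyp {b : Bool} (h : Re (sg b T1) φ) :
    Re (sg b fun _ v => v 0 * v 4 = v 4 * v 0) φ := fun ts =>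
  h fun i => match i with
    | 0 => ts 0
    | 1 => .mul (ts 0) (ts 4)
    | _ + 2 => .mul (ts 4) (ts 0)

theorem Re.con {b : Bool} (h : Re (sg b T1) φ) :
    Re (sg b fun _ v => v 3 * (v 4 * v 1) = v 2 * (v 4 * v 1) * v 3) φ := fun ts =>
  h fun i => match i with
    | 0 => ts 0
    | 1 => .mul (ts 3) (.mul (ts 4) (ts 1))
    | _ + 2 => .mul (.mul (ts 2) (.mul (ts 4) (ts 1))) (ts 3)

theorem Re.all2 (h : Re (sg true T2) φ) : Re (sg true T3) (.all φ) :=
  (h.all1 3).congr fun _ _ _ => Iff.rfl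

theorem Re.ex2 (h : Re (sg false T2) φ) : Re (sg false T3) (.ex φ) :=
  (h.ex1 3).congr fun _ _ _ =>
    ⟨fun ⟨x, hx, k⟩ e => k (e x hx), fun k => by_contra fun e => k fun x hx =>
      by_contra fun e' => e ⟨x, hx, e'⟩⟩

theorem Re.ex3 (h : Re (sg true T3) φ) : Re (sg true T4) (.ex φ) :=
  (h.ex1 2).congr fun _ _ _ => Iff.rfl

theorem Re.all3 (h : Re (sg false T3) φ) : Re (sg false T4) (.all φ) :=
  (h.all1 2).congr fun _ _ _ =>
    ⟨fun k ⟨x, hx, e⟩ => k x hx e, fun k x hx e => k ⟨x, hx, e⟩⟩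

theorem Pol.unique {b : Bool} (h : Pol b φ) : ∀ {c : Bool}, Pol c φ → b = c := by
  induction h with
  | eq s t => rintro _ ⟨⟩; rfl
  | neg _ ih => rintro _ ⟨⟩; exact congrArg _ (ih ‹_›)
  | and _ _ ih _ => rintro _ ⟨⟩; exact ih ‹_›
  | or _ _ ih _ => rintro _ ⟨⟩; exact ih ‹_›
  | ex _ ih => rintro _ ⟨⟩; exact ih ‹_›
  | all _ ih => rintro _ ⟨⟩; exact ih ‹_›

theorem step1 (φ : Fm) : ∀ c, Pol (!c) φ ∨ Re (sg c T1) φ := by
  induction φ with
  | eq s t =>
    rintro (_ | _)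
    · exact .inl (.eq s t)
    · exact .inr fun ts => ⟨.eq (ts 1) (ts 2), .eq _ _ _ _, fun _ _ _ _ => Iff.rfl⟩
  | neg φ ih => exact fun c => (ih !c).imp (fun h => by simpa using h.neg) .sneg
  | and φ ψ ih ih' =>
    exact fun c => (ih c).elim (fun h => (ih' c).imp h.and .andr) fun h => .inr h.andl
  | or φ ψ ih ih' =>
    exact fun c => (ih c).elim (fun h => (ih' c).imp h.or .orr) fun h => .inr h.orl
  | ex φ ih => exact fun c => (ih c).imp .ex .ex0
  | all φ ih => exact fun c => (ih c).imp .all .all0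

theorem mixed (φ ψ : Fm) : (∃ c, Pol c φ ∧ Pol c ψ) ∨
    (Re (sg true T2) (.or φ ψ) ∧ Re (sg false T2) (.and φ ψ)) := by
  rcases step1 φ true with h1 | h1 <;> rcases step1 φ false with h2 | h2 <;>
    rcases step1 ψ true with h3 | h3 <;> rcases step1 ψ false with h4 | h4
  all_goals first
    | exact absurd (Pol.unique h1 h2) (by decide)
    | exact absurd (Pol.unique h3 h4) (by decide)
    | exact .inl ⟨_, h1, h3⟩
    | exact .inl ⟨_, h2, h4⟩
    | exact .inr ⟨(h1.con.or h4.hyp).congr fun _ _ _ => imp_iff_or_not.symm,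
        (h1.hyp.and h4.con).congr fun _ _ _ => Classical.not_imp.symm⟩
    | exact .inr ⟨(h2.hyp.or h3.con).congr fun _ _ _ => imp_iff_not_or.symm,
        (h2.con.and h3.hyp).congr fun _ _ _ => and_comm.trans Classical.not_imp.symm⟩

theorem step2 (φ : Fm) : (∃ c, Pol c φ) ∨ ∃ b, Re (sg b T2) φ := by
  induction φ with
  | eq s t => exact .inl ⟨_, .eq s t⟩
  | neg φ ih => exact ih.imp (fun ⟨_, h⟩ => ⟨_, h.neg⟩) fun ⟨_, h⟩ => ⟨_, h.sneg'⟩
  | and φ ψ => exact (mixed φ ψ).imp (fun ⟨_, h, k⟩ => ⟨_, h.and k⟩) fun h => ⟨_, h.2⟩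
  | or φ ψ => exact (mixed φ ψ).imp (fun ⟨_, h, k⟩ => ⟨_, h.or k⟩) fun h => ⟨_, h.1⟩
  | ex φ ih => exact ih.imp (fun ⟨_, h⟩ => ⟨_, h.ex⟩) fun ⟨_, h⟩ => ⟨_, h.ex0⟩
  | all φ ih => exact ih.imp (fun ⟨_, h⟩ => ⟨_, h.all⟩) fun ⟨_, h⟩ => ⟨_, h.all0⟩

theorem step3 (φ : Fm) : ∀ b, Cor b φ ∨ Re (sg b T2) φ ∨ Re (sg (!b) T3) φ := by
  induction φ with
  | eq s t => exact fun b => .inl (.base (.eq s t))
  | neg φ ih => exact fun b => (ih !b).imp (fun h => by simpa using h.neg) (.imp .sneg .sneg)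
  | and φ ψ ih ih' =>
    rintro (_ | _)
    · exact (mixed φ ψ).imp (fun ⟨_, h, k⟩ => .base (h.and k)) fun h => .inl h.2
    · exact (ih true).elim (fun h => (ih' true).imp h.and (.imp .andr .andr))
        fun h => .inr (h.imp .andl .andl)
  | or φ ψ ih ih' =>
    rintro (_ | _)
    · exact (ih false).elim (fun h => (ih' false).imp h.or (.imp .orr .orr))
        fun h => .inr (h.imp .orl .orl)
    · exact (mixed φ ψ).imp (fun ⟨_, h, k⟩ => .base (h.or k)) fun h => .inl h.1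
  | ex φ ih =>
    rintro (_ | _)
    · exact (ih false).imp .ex (.imp .ex0 .ex0)
    · rcases step2 φ with ⟨_, h⟩ | ⟨_ | _, h⟩
      exacts [.inl (.base h.ex), .inr (.inr h.ex2), .inr (.inl h.ex0)]
  | all φ ih =>
    rintro (_ | _)
    · rcases step2 φ with ⟨_, h⟩ | ⟨_ | _, h⟩
      exacts [.inl (.base h.all), .inr (.inl h.all0), .inr (.inr h.all2)]
    · exact (ih true).imp .all (.imp .all0 .all0)

theorem step4 (φ : Fm) : ∀ b, Lev b φ ∨ Re (sg b T3) φ ∨ Re (sg (!b) T4) φ := by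
  induction φ with
  | eq s t => exact fun b => .inl (.base (.base (.eq s t)))
  | neg φ ih => exact fun b => (ih !b).imp (fun h => by simpa using h.neg) (.imp .sneg .sneg)
  | and φ ψ ih ih' =>
    exact fun b => (ih b).elim (fun h => (ih' b).imp h.and (.imp .andr .andr))
      fun h => .inr (h.imp .andl .andl)
  | or φ ψ ih ih' =>
    exact fun b => (ih b).elim (fun h => (ih' b).imp h.or (.imp .orr .orr))
      fun h => .inr (h.imp .orl .orl)
  | ex φ ih =>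
    rintro (_ | _)
    · rcases step3 φ false with h | h | h
      exacts [.inl (.base h.ex), .inr (.inl h.ex2), .inr (.inr h.ex3)]
    · exact (ih true).imp .ex (.imp .ex0 .ex0)
  | all φ ih =>
    rintro (_ | _)
    · exact (ih false).imp .all (.imp .all0 .all0)
    · rcases step3 φ true with h | h | h
      exacts [.inl (.base h.all), .inr (.inl h.all2), .inr (.inr h.all3)]

theorem step5 (φ : Fm) : Gam φ ∨ ∃ b, Re (sg b T4) φ := by
  induction φ with
  | eq s t => exact .inl (.base (b := true) (.base (.base (.eq s t))))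
  | neg φ ih => exact ih.imp .neg fun ⟨_, h⟩ => ⟨_, h.sneg'⟩
  | and φ ψ ih ih' =>
    exact ih.elim (fun h => ih'.imp h.and fun ⟨_, k⟩ => ⟨_, k.andr⟩) fun ⟨_, k⟩ => .inr ⟨_, k.andl⟩
  | or φ ψ ih ih' =>
    exact ih.elim (fun h => ih'.imp h.or fun ⟨_, k⟩ => ⟨_, k.orr⟩) fun ⟨_, k⟩ => .inr ⟨_, k.orl⟩
  | ex φ =>
    rcases step4 φ true with h | h | h
    exacts [.inl (.base h.ex), .inr ⟨_, h.ex3⟩, .inr ⟨_, h.ex0⟩]
  | all φ =>
    rcases step4 φ false with h | h | h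
    exacts [.inl (.base h.all), .inr ⟨_, h.all3⟩, .inr ⟨_, h.all0⟩]

theorem not_abs : ∃ (I : Set (ℕ → ℕ)) (G : Subgroup (Equiv.Perm ℕ)) (l : List (Equiv.Perm ℕ)),
    IsScottIdeal I ∧ IsProfinite G ∧ treeCode G ∈ I ∧ (∀ g ∈ l, g ∈ subI G I) ∧
      ∀ φ, ¬ Gam φ → ∃ ψ, Same φ ψ ∧ ¬ (ψ.Sat (subI G I) l ↔ ψ.Sat G l) := by
  obtain ⟨I, G, a, c, d, h1, h2, h3, h4, h5, h6, h7, h8, h9⟩ := cl_main
  refine ⟨I, G, [a, c, d], h1, h2, h3, by simp [h4, h5, h6], fun φ hφ => ?_⟩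
  obtain ⟨b, h⟩ := (step5 φ).resolve_left hφ
  obtain ⟨ψ, k1, k2⟩ := h .var
  refine ⟨ψ, k1, fun e => ?_⟩
  rw [k2 _ [a, c, d] ⟨a, h4⟩ h7, k2 _ [a, c, d] ⟨a, h4.1⟩ h7] at e
  cases b
  · exact e.1 h9 h8
  · exact h9 (e.2 h8)

end Pool.Agent.Lib.MP_eef9c4_lc
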